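import Pool.Agent.NH64.JT.Step

/-!
# Construction of a system (helper file for MP_245e03_an, Q2)
-/

set_option autoImplicit false

open Set Filter Topology

namespace Pool.Agent.NH64.JT

open Pool.Agent.R277.JT

lemma exists_G (y : Br → D Tree) {ε : ℕ → ℝ} (hε : ∀ n, 0 < ε n) :
    ∃ (G : ℕ → Br → Finset Br) (κ : ℕ → Br → ℕ), (∀ x m n, m ≤ n → G m x ⊆ G n x) ∧
      (∀ n x, x ∈ G n x) ∧ ∀ n x k, κ n x ≤ k → Sep (G n x) k ∧
        ‖cut (y x) (lv Tree k) - ∑ d ∈ G n x, Lm (br d) (y x) • sg (br d) k‖ ≤ ε n / 2 := by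
  classical
  choose F0 hF0 using fun (n : ℕ) (x : Br) => structA (y x) (show 0 < ε n / 2 by
    have := hε n
    linarith)
  let G : ℕ → Br → Finset Br := fun n x => (Finset.range (n + 1)).biUnion (fun m => F0 m x) ∪ {x}
  have hG : ∀ n x, F0 n x ⊆ G n x := fun n x =>
    (Finset.subset_biUnion_of_mem (fun m => F0 m x) (Finset.self_mem_range_succ n)).trans
      Finset.subset_union_left
  choose κ hκ using fun n x => hF0 n x (G n x) (hG n x)
  choose κ' hκ' using fun n x => exists_sep (G n x)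
  refine ⟨G, fun n x => max (κ n x) (κ' n x), ?_, ?_, ?_⟩
  · intro x m n hmn
    apply Finset.union_subset_union _ (Finset.Subset.refl _)
    exact Finset.biUnion_subset_biUnion_of_subset_left _ (Finset.range_subset_range.2 (by omega))
  · intro n x
    exact Finset.mem_union_right _ (Finset.mem_singleton_self x)
  · intro n x k hk
    exact ⟨(hκ' n x).mono ((le_max_right _ _).trans hk), hκ n x k ((le_max_left _ _).trans hk)⟩

/-- the state of the construction -/
structure St where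
  k : ℕ
  V : Tree → Set Br
  P : Tree → Finset Br
  L : Tree → D Tree
  c : Tree → Br
  t : Tree → Tree
  U : Finset Br

/-- the properties on one level -/
structure Inv (y : Br → D Tree) (C : Set Br) (ε : ℕ → ℝ) (G : ℕ → Br → Finset Br) (n : ℕ)
    (s : St) : Prop where
  sub : ∀ β, lev β = n → s.V β ⊆ C
  unc : ∀ β, lev β = n → ¬ (s.V β).Countable
  mem : ∀ β, lev β = n → s.c β ∈ s.V β
  cnt : ∀ β, lev β = n → ∀ d ∉ s.P β, {x | x ∈ s.V β ∧ d ∈ G n x}.Countable
  self : ∀ β, lev β = n → ∀ x ∈ s.V β, x ∈ mv (G n x) (s.P β)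
  sep : ∀ β, lev β = n → ∀ x ∈ s.V β, Sep (G n x) s.k
  appr : ∀ β, lev β = n → ∀ x ∈ s.V β,
    ‖y x - s.L β - ∑ d ∈ mv (G n x) (s.P β), Lm (br d) (y x) • sg (br d) s.k‖ ≤ ε n
  node : ∀ β, lev β = n → ∀ x ∈ s.V β, br x s.k = s.t β
  dis : ∀ α β, lev α = n → lev β = n → α ≠ β → ∀ x ∈ s.V α, ∀ x' ∈ s.V β,
    ∀ d ∈ mv (G n x) (s.P α), ∀ d' ∈ mv (G n x') (s.P β), br d s.k ≠ br d' s.k
  used : ∀ β, lev β = n → G n (s.c β) ⊆ s.U

/-- the relation between consecutive levels -/
structure Rl (G : ℕ → Br → Finset Br) (n : ℕ) (s s' : St) : Prop where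
  klt : s.k < s'.k
  usub : s.U ⊆ s'.U
  sub : ∀ β, lev β = n + 1 → s'.V β ⊆ s.V (par β)
  mov : ∀ β, lev β = n + 1 → ∀ x ∈ s'.V β, ∀ d ∈ mv (G n x) (s.P (par β)), d ∉ s'.P β
  old : ∀ β, lev β = n + 1 → ∀ x ∈ s'.V β, ∀ d ∈ mv (G (n + 1) x) (s'.P β), ∀ d' ∈ s.U,
    br d s'.k ≠ br d' s'.k

open Classical in
/-- the nodes of one level -/
noncomputable def lvl (n : ℕ) : Finset Tree := (low (n + 1)).filter (fun α => lev α = n)

lemma mem_lvl {n : ℕ} {α : Tree} : α ∈ lvl n ↔ lev α = n := by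
  unfold lvl
  rw [Finset.mem_filter, mem_low]
  constructor
  · exact fun h => h.2
  · intro h
    exact ⟨by omega, h⟩

theorem exists_sys {y : Br → D Tree} {C : Set Br} {M : ℝ} (hC : ¬ C.Countable)
    (hy : ∀ x ∈ C, ‖y x‖ ≤ M) (hL : ∀ x ∈ C, Lm (br x) (y x) = 1) {ε : ℕ → ℝ}
    (hε : ∀ n, 0 < ε n) : ∃ S : Sys y M ε, ∀ α, S.c α ∈ C := by
  classical
  obtain ⟨G, κ, hG1, hG2, hG3⟩ := exists_G y hε
  -- the first step
  have h0 : ∃ s, Inv y C ε G 0 s := by
    obtain ⟨k, V, P, L, c, t, -, h⟩ := step (y := y) (C := C) (hε 0) (lvl 0) (fun _ => C)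
      (fun _ _ => hC) (fun _ _ => le_rfl) (G 0) (fun x _ => hG2 0 x) (κ 0)
      (fun x _ k hk => hG3 0 x k hk) (fun _ => ∅) (fun _ => ∅) (by
        intro β _ d _
        refine Set.Countable.mono (fun x hx => ?_) Set.countable_empty
        exact absurd hx.2 (Finset.notMem_empty d)) ∅ 0
    have hl : ∀ β : Tree, lev β = 0 → β ∈ lvl 0 := fun β hβ => mem_lvl.2 hβ
    exact ⟨⟨k, V, P, L, c, t, (lvl 0).biUnion (fun β => G 0 (c β))⟩,
      fun β hβ => (h β (hl β hβ)).1, fun β hβ => (h β (hl β hβ)).2.1,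
      fun β hβ => (h β (hl β hβ)).2.2.1, fun β hβ => (h β (hl β hβ)).2.2.2.1,
      fun β hβ x hx => ((h β (hl β hβ)).2.2.2.2.1 x hx).1,
      fun β hβ x hx => ((h β (hl β hβ)).2.2.2.2.1 x hx).2.1,
      fun β hβ x hx => ((h β (hl β hβ)).2.2.2.2.1 x hx).2.2.1,
      fun β hβ x hx => ((h β (hl β hβ)).2.2.2.2.1 x hx).2.2.2.2.1,
      fun α β hα hβ hne => (h α (hl α hα)).2.2.2.2.2 β (hl β hβ) hne,
      fun β hβ => Finset.subset_biUnion_of_mem (fun β => G 0 (c β)) (hl β hβ)⟩
  -- the other steps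
  have hnext : ∀ (n : ℕ) (s : St), ∃ s' : St, Inv y C ε G n s →
      (Inv y C ε G (n + 1) s' ∧ Rl G n s s') := by
    intro n s
    by_cases hs : Inv y C ε G n s
    · obtain ⟨k, V, P, L, c, t, hk, h⟩ := step (y := y) (C := C) (hε (n + 1)) (lvl (n + 1))
        (fun β => s.V (par β))
        (fun β hβ => hs.unc _ (lev_par (mem_lvl.1 hβ)))
        (fun β hβ => hs.sub _ (lev_par (mem_lvl.1 hβ))) (G (n + 1)) (fun x _ => hG2 (n + 1) x)
        (κ (n + 1)) (fun x _ k hk => hG3 (n + 1) x k hk) (G n) (fun β => s.P (par β))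
        (fun β hβ => hs.cnt _ (lev_par (mem_lvl.1 hβ))) s.U s.k
      have hl : ∀ β : Tree, lev β = n + 1 → β ∈ lvl (n + 1) := fun β hβ => mem_lvl.2 hβ
      refine ⟨⟨k, V, P, L, c, t, s.U ∪ (lvl (n + 1)).biUnion (fun β => G (n + 1) (c β))⟩,
        fun _ => ⟨⟨fun β hβ => ((h β (hl β hβ)).1).trans (hs.sub _ (lev_par hβ)),
        fun β hβ => (h β (hl β hβ)).2.1,
        fun β hβ => (h β (hl β hβ)).2.2.1, fun β hβ => (h β (hl β hβ)).2.2.2.1,
        fun β hβ x hx => ((h β (hl β hβ)).2.2.2.2.1 x hx).1,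
        fun β hβ x hx => ((h β (hl β hβ)).2.2.2.2.1 x hx).2.1,
        fun β hβ x hx => ((h β (hl β hβ)).2.2.2.2.1 x hx).2.2.1,
        fun β hβ x hx => ((h β (hl β hβ)).2.2.2.2.1 x hx).2.2.2.2.1,
        fun α β hα hβ hne => (h α (hl α hα)).2.2.2.2.2 β (hl β hβ) hne,
        fun β hβ => (Finset.subset_biUnion_of_mem (fun β => G (n + 1) (c β)) (hl β hβ)).trans
          Finset.subset_union_right⟩, ⟨hk, Finset.subset_union_left,
        fun β hβ => (h β (hl β hβ)).1,
        fun β hβ x hx => ((h β (hl β hβ)).2.2.2.2.1 x hx).2.2.2.1,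
        fun β hβ x hx => ((h β (hl β hβ)).2.2.2.2.1 x hx).2.2.2.2.2⟩⟩⟩
    · exact ⟨s, fun h => absurd h hs⟩
  choose nx hnx using hnext
  obtain ⟨s0, hs0⟩ := h0
  let st : ℕ → St := fun n => Nat.rec s0 (fun n s => nx n s) n
  have hst : ∀ n, st (n + 1) = nx n (st n) := fun n => rfl
  have hI : ∀ n, Inv y C ε G n (st n) := by
    intro n
    induction n with
    | zero => exact hs0
    | succ n ih => rw [hst]; exact (hnx n (st n) ih).1
  have hR : ∀ n, Rl G n (st n) (st (n + 1)) := fun n => (hnx n (st n) (hI n)).2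
  have hVs : ∀ β e, (st (lev (ch β e))).V (ch β e) ⊆ (st (lev β)).V β := by
    intro β e
    have h1 := (hR (lev β)).sub (ch β e) (lev_ch β e)
    rw [par_ch] at h1
    rw [lev_ch]
    exact h1
  have hanti : ∀ α β : Tree, α ≤ β → (st (lev β)).V β ⊆ (st (lev α)).V α := by
    intro α β h
    apply le_induction (Q := fun α β => (st (lev β)).V β ⊆ (st (lev α)).V α) _ _ h
    · intro α
      exact le_rfl
    · intro α β e _ ih
      exact (hVs β e).trans ih
  have hUm : Monotone (fun n => (st n).U) := monotone_nat_of_le_succ fun n => (hR n).usub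
  refine ⟨{ k := fun n => (st n).k
            G := G
            V := fun α => (st (lev α)).V α
            P := fun α => (st (lev α)).P α
            L := fun α => (st (lev α)).L α
            c := fun α => (st (lev α)).c α
            t := fun α => (st (lev α)).t α
            k_mono := strictMono_nat_of_lt_succ fun n => (hR n).klt
            G_mono := hG1
            c_mem := fun α => (hI _).mem α rfl
            V_anti := hanti
            norm := fun α x hx => hy x ((hI _).sub α rfl hx)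
            lim := fun α x hx => hL x ((hI _).sub α rfl hx)
            self := fun α => (hI _).self α rfl
            sep := fun α => (hI _).sep α rfl
            appr := fun α => (hI _).appr α rfl
            mov := ?_
            dis := ?_
            old := ?_
            node := fun α => (hI _).node α rfl }, fun α => (hI _).sub α rfl ((hI _).mem α rfl)⟩
  · intro α β h
    apply le_induction (Q := fun α β => ∀ x ∈ (st (lev β)).V β,
      ∀ d ∈ mv (G (lev α) x) ((st (lev α)).P α), d ∉ (st (lev β)).P β) _ _ h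
    · intro α x _ d hd
      exact (mem_mv.1 hd).2
    · intro α β e hαβ ih x hx d hd
      have h1 := ih x (hVs β e hx) d hd
      have h2 := (hR (lev β)).mov (ch β e) (lev_ch β e)
      rw [par_ch] at h2
      rw [lev_ch] at hx ⊢
      exact h2 x hx d (mem_mv.2 ⟨hG1 x _ _ (lev_mono hαβ) (mem_mv.1 hd).1, h1⟩)
  · intro α β hl hne x hx x' hx' d hd d' hd'
    have h1 := (hI (lev α)).dis α β rfl hl.symm hne
    rw [← hl] at hx' hd'
    exact h1 x hx x' hx' d hd d' hd'
  · intro α β hl x hx d hd d' hd'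
    obtain ⟨m, hm⟩ : ∃ m, lev β = m + 1 := ⟨lev β - 1, by omega⟩
    have h1 := (hR m).old β hm
    rw [hm] at hx hd ⊢
    refine h1 x hx d hd d' ?_
    have h2 : lev α ≤ m := by omega
    exact hUm h2 ((hI (lev α)).used α rfl hd')

end Pool.Agent.NH64.JT
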