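import Pool.Agent.NH64.JT.Upper2

/-!
# The lower estimate (helper file for MP_245e03_an, Q2)
-/

set_option autoImplicit false

open Set Filter Topology

namespace Pool.Agent.NH64.JT

open Pool.Agent.R277.JT

section pushT

/-- convex chains are segments -/
lemma isSeg_of_chain {T : Finset Tree} (hne : T.Nonempty)
    (hch : ∀ a ∈ T, ∀ b ∈ T, a ≤ b ∨ b ≤ a)
    (hconv : ∀ a ∈ T, ∀ b ∈ T, ∀ c, a ≤ c → c ≤ b → c ∈ T) : IsSeg T := by
  obtain ⟨m, hm1, hm2⟩ := T.exists_minimal hne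
  obtain ⟨Q, hQ1, hQ2⟩ := T.exists_maximal hne
  have hmin : ∀ b ∈ T, m ≤ b := by
    intro b hb
    rcases hch m hm1 b hb with h | h
    · exact h
    · exact hm2 hb h
  have hmax : ∀ b ∈ T, b ≤ Q := by
    intro b hb
    rcases hch Q hQ1 b hb with h | h
    · exact hQ2 hb h
    · exact h
  exact ⟨m, Q, hmin Q hQ1, fun b => ⟨fun hb => ⟨hmin b hb, hmax b hb⟩,
    fun h => hconv m hm1 Q hQ1 b h.1 h.2⟩⟩

/-- push-forward along a map of the tree -/
noncomputable def pushTL (g : Tree → Tree) : Pre Tree →ₗ[ℝ] Pre Tree :=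
  (show (Tree →₀ ℝ) →ₗ[ℝ] (Tree →₀ ℝ) from Finsupp.lmapDomain ℝ ℝ g)

lemma pushTL_val {g : Tree → Tree} (hg : Function.Injective g) (x : Pre Tree) (l : Tree) :
    (pushTL g x).val (g l) = x.val l := Finsupp.mapDomain_apply hg _ _

lemma pushTL_val_not {g : Tree → Tree} (x : Pre Tree) {i : Tree} (hi : i ∉ range g) :
    (pushTL g x).val i = 0 := Finsupp.mapDomain_of_notMem_range _ _ hi

lemma pushTL_ev (g : Tree → Tree) (l : Tree) : pushTL g (ev l) = ev (g l) := by
  change Finsupp.mapDomain g (Finsupp.single l (1:ℝ)) = Finsupp.single (g l) (1:ℝ)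
  exact Finsupp.mapDomain_single

lemma norm_pushTL_le {g : Tree → Tree} (hg : ∀ a b, g a ≤ g b ↔ a ≤ b) (x : Pre Tree) :
    ‖pushTL g x‖ ≤ ‖x‖ := by
  classical
  have hinj : Function.Injective g := fun a b h =>
    le_antisymm ((hg a b).1 h.le) ((hg b a).1 h.ge)
  have h := sum_sq_abs ({()} : Finset Unit) (fun _ => pushTL g x) x
    (fun _ S => S.preimage g hinj.injOn) ?_ ?_ ?_ ?_
  · rw [Finset.sum_singleton] at h
    exact le_of_sq_le_sq h (norm_nonneg x)
  · rintro - - S ⟨a, c, hac, hm⟩ hne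
    apply isSeg_of_chain hne
    · intro p hp q hq
      rw [Finset.mem_preimage, hm] at hp hq
      rw [← hg p q, ← hg q p]
      exact Forest.comp _ _ c hp.2 hq.2
    · intro p hp q hq r h1 h2
      rw [Finset.mem_preimage, hm] at hp hq ⊢
      exact ⟨hp.1.trans ((hg _ _).2 h1), ((hg _ _).2 h2).trans hq.2⟩
  · rintro - - S -
    unfold ss
    rw [← Finset.sum_preimage g S hinj.injOn]
    · exact Finset.sum_congr rfl fun l _ => pushTL_val hinj x l
    · intro i _ hi
      exact pushTL_val_not x hi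
  · rintro - - S S' - - hdis
    rw [Finset.disjoint_left] at hdis ⊢
    intro l h1 h2
    rw [Finset.mem_preimage] at h1 h2
    exact hdis h1 h2
  · rintro i - j - hij
    exact absurd rfl hij

/-- push-forward along an order embedding -/
noncomputable def pushT (g : Tree → Tree) (hg : ∀ a b, g a ≤ g b ↔ a ≤ b) :
    Pre Tree →L[ℝ] Pre Tree :=
  (pushTL g).mkContinuous 1 (fun x => by rw [one_mul]; exact norm_pushTL_le hg x)

lemma pushT_ev (g : Tree → Tree) (hg : ∀ a b, g a ≤ g b ↔ a ≤ b) (l : Tree) :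
    pushT g hg (ev l) = ev (g l) := pushTL_ev g l

lemma norm_comp_pushT_le (g : Tree → Tree) (hg : ∀ a b, g a ≤ g b ↔ a ≤ b) (f : D Tree) :
    ‖f.comp (pushT g hg)‖ ≤ ‖f‖ := by
  apply ContinuousLinearMap.opNorm_le_bound _ (norm_nonneg _)
  intro x
  exact (f.le_opNorm _).trans
    (mul_le_mul_of_nonneg_left (norm_pushTL_le hg x) (norm_nonneg _))

end pushT

section eval

variable {H : Finset Br} {u : Br → ℝ} {k : ℕ} {ν : Tree}

lemma ev_zero (h : ∀ d ∈ H, br d (lev ν) ≠ ν) : (∑ d ∈ H, u d • sg (br d) k) (ev ν) = 0 := by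
  classical
  rw [_root_.sum_apply]
  apply Finset.sum_eq_zero
  intro d hd
  rw [_root_.smul_apply, sg_ev, if_neg (fun h' => h d hd h'.2), smul_zero]

lemma ev_zero' (h : lev ν < k) : (∑ d ∈ H, u d • sg (br d) k) (ev ν) = 0 := by
  classical
  rw [_root_.sum_apply]
  apply Finset.sum_eq_zero
  intro d hd
  rw [_root_.smul_apply, sg_ev, if_neg (fun h' => not_le.2 h h'.1), smul_zero]

lemma ev_one {b : Br} (hb : b ∈ H) (hk : k ≤ lev ν) (hν : br b (lev ν) = ν)
    (h : ∀ d ∈ H, d ≠ b → br d (lev ν) ≠ ν) : (∑ d ∈ H, u d • sg (br d) k) (ev ν) = u b := by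
  classical
  rw [_root_.sum_apply, Finset.sum_eq_single_of_mem b hb]
  · have h1 : ν ∈ tail (br b) k := ⟨hk, hν⟩
    rw [_root_.smul_apply, sg_ev, if_pos h1]
    simp
  · intro d hd hne
    rw [_root_.smul_apply, sg_ev, if_neg (fun h' => h d hd hne h'.2), smul_zero]

end eval

variable {y : Br → D Tree} {M : ℝ} {ε : ℕ → ℝ}

namespace Sys

lemma t_eq (S : Sys y M ε) {α β : Tree} (h : α ≤ β) : S.t α = br (S.c β) (S.k (lev α)) :=
  (S.node α _ (S.c_mem' h)).symm

lemma lev_t (S : Sys y M ε) (α : Tree) : lev (S.t α) = S.k (lev α) := by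
  rw [S.t_eq le_rfl, IsBr.lev_eq]

lemma c_mem_H (S : Sys y M ε) {α β : Tree} (h : α ≤ β) : S.c β ∈ S.H α β :=
  S.self α _ (S.c_mem' h)

lemma t_le (S : Sys y M ε) (α β : Tree) : S.t α ≤ S.t β ↔ α ≤ β := by
  constructor
  · intro h
    have h1 := lev_mono h
    rw [S.lev_t, S.lev_t] at h1
    have h2 : lev α ≤ lev β := S.k_mono.le_iff_le.1 h1
    obtain ⟨δ, hδ1, hδ2⟩ := exists_pred β h2
    have h3 : S.t δ ≤ S.t β := by
      rw [S.t_eq hδ1, S.t_eq (le_refl β)]
      exact IsBr.mono (S.k_mono.monotone (lev_mono hδ1))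
    have h4 : S.t α = S.t δ := anc_unique h h3 (by rw [S.lev_t, S.lev_t, hδ2])
    have h5 : α = δ := by
      by_contra hne
      apply S.H_dis (le_refl α) (le_refl δ) hδ2.symm hne (S.c_mem_H le_rfl) (S.c_mem_H le_rfl)
        (le_refl (S.k (lev α)))
      rw [← S.t_eq (le_refl α), h4, S.t_eq (le_refl δ), hδ2]
    rw [h5]
    exact hδ1
  · intro h
    rw [S.t_eq h, S.t_eq (le_refl β)]
    exact IsBr.mono (S.k_mono.monotone (lev_mono h))

/-- the main part of a difference -/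
noncomputable def Q (S : Sys y M ε) (α : Tree) : D Tree :=
  ∑ d ∈ S.H (par (sh α)) (sh α), Lm (br d) (S.z (sh α)) • sg (br d) (S.k (lev α)) -
    ∑ d ∈ S.H (par (sh α)) (par (sh α)), Lm (br d) (S.z (par (sh α))) • sg (br d) (S.k (lev α))

lemma norm_f_sub_Q (S : Sys y M ε) (α : Tree) : ‖S.f α - S.Q α‖ ≤ 2 * ε (lev α) := by
  have a1 := S.appr (par (sh α)) (S.c (sh α)) (S.c_mem' (par_le _))
  have a2 := S.appr (par (sh α)) (S.c (par (sh α))) (S.c_mem _)
  rw [lev_par_sh] at a1 a2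
  set g1 := y (S.c (sh α)) - S.L (par (sh α)) - ∑ d ∈ mv (S.G (lev α) (S.c (sh α)))
    (S.P (par (sh α))), Lm (br d) (y (S.c (sh α))) • sg (br d) (S.k (lev α)) with hg1
  set g2 := y (S.c (par (sh α))) - S.L (par (sh α)) - ∑ d ∈ mv (S.G (lev α) (S.c (par (sh α))))
    (S.P (par (sh α))), Lm (br d) (y (S.c (par (sh α)))) • sg (br d) (S.k (lev α)) with hg2
  have h1 : S.f α - S.Q α = g1 - g2 := by
    rw [hg1, hg2]
    unfold f Q H z
    rw [lev_par_sh]
    abel
  rw [h1]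
  have h2 := norm_sub_le g1 g2
  linarith

lemma Q_ev (S : Sys y M ε) (α β : Tree) [Decidable (α = β)] :
    S.Q α (ev (S.t (sh β))) = if α = β then 1 else 0 := by
  have hkm := S.k_mono.monotone
  set p := par (sh α) with hp
  have hlp : lev p = lev α := lev_par_sh α
  have hpl : p ≤ sh α := par_le _
  have hν : lev (S.t (sh β)) = S.k (lev β + 1) := S.lev_t (sh β)
  unfold Q
  rw [_root_.sub_apply, ← hp]
  rcases lt_trichotomy (lev β + 1) (lev α) with h | h | h
  · -- low level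
    have hlt : lev (S.t (sh β)) < S.k (lev α) := by rw [hν]; exact S.k_mono h
    rw [ev_zero' hlt, ev_zero' hlt, if_neg (by rintro rfl; omega)]
    simp
  · -- level of `p`
    rw [if_neg (by rintro rfl; omega)]
    have hkl : S.k (lev α) ≤ lev (S.t (sh β)) := by rw [hν, h]
    by_cases hpb : sh β = p
    · have e1 : ∀ δ, p ≤ δ → (∑ d ∈ S.H p δ, Lm (br d) (S.z δ) • sg (br d) (S.k (lev α)))
          (ev (S.t (sh β))) = 1 := by
        intro δ hδ
        rw [ev_one (b := S.c δ) (S.c_mem_H hδ) hkl]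
        · exact S.lim δ _ (S.c_mem δ)
        · rw [hν, hpb, S.t_eq hδ, hlp, h]
        · intro d hd hne heq
          apply S.H_sep hδ hd (S.c_mem_H hδ) hne (p := S.k (lev p)) le_rfl
          rw [hν, h, ← hlp] at heq
          rw [heq, hpb, S.t_eq hδ]
      rw [e1 _ hpl, e1 _ le_rfl, sub_self]
    · have e1 : ∀ δ, p ≤ δ → (∑ d ∈ S.H p δ, Lm (br d) (S.z δ) • sg (br d) (S.k (lev α)))
          (ev (S.t (sh β))) = 0 := by
        intro δ hδ
        apply ev_zero
        intro d hd heq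
        have hl : lev p = lev (sh β) := by rw [hlp, lev_sh, h]
        apply S.H_dis hδ (le_refl (sh β)) hl (Ne.symm hpb) hd (S.c_mem_H le_rfl)
          (le_refl (S.k (lev p)))
        rw [hν, h, ← hlp] at heq
        rw [heq, S.t_eq (le_refl (sh β)), hl]
      rw [e1 _ hpl, e1 _ le_rfl, sub_self]
  · -- higher levels
    have hkl : S.k (lev α) ≤ lev (S.t (sh β)) := by rw [hν]; exact hkm h.le
    have hl1 : lev p < lev (sh β) := by rw [hlp, lev_sh]; exact h
    have e2 : (∑ d ∈ S.H p p, Lm (br d) (S.z p) • sg (br d) (S.k (lev α)))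
          (ev (S.t (sh β))) = 0 := by
      apply ev_zero
      intro d hd heq
      apply S.old p (sh β) hl1 (S.c (sh β)) (S.c_mem _) (S.c (sh β)) (S.c_mem_H le_rfl) d
        (mem_mv.1 hd).1
      rw [← S.t_eq (le_refl (sh β)), ← heq, S.lev_t]
    rw [e2, sub_zero]
    by_cases hαβ : α = β
    · subst hαβ
      rw [if_pos rfl, ev_one (b := S.c (sh α)) (S.c_mem_H hpl) hkl]
      · exact S.lim _ _ (S.c_mem _)
      · rw [S.lev_t, ← S.t_eq (le_refl (sh α))]
      · intro d hd hne heq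
        apply S.H_sep hpl hd (S.c_mem_H hpl) hne (p := S.k (lev (sh α))) (hkm hl1.le)
        rw [S.lev_t] at heq
        rw [heq, S.t_eq (le_refl (sh α))]
    · rw [if_neg hαβ]
      apply ev_zero
      intro d hd heq
      have hd1 := S.H_sub hpl le_rfl hd
      rw [S.lev_t] at heq
      rcases (Nat.succ_le_of_lt h).eq_or_lt with h2 | h2
      · have hl : lev (sh α) = lev (sh β) := by rw [lev_sh, lev_sh]; omega
        apply S.H_dis (le_refl (sh α)) (le_refl (sh β)) hl (fun h3 => hαβ (sh_inj h3)) hd1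
          (S.c_mem_H le_rfl) (le_refl (S.k (lev (sh α))))
        rw [hl, heq, S.t_eq (le_refl (sh β))]
      · have hl : lev (sh α) < lev (sh β) := by rw [lev_sh, lev_sh]; omega
        apply S.old (sh α) (sh β) hl (S.c (sh β)) (S.c_mem _) (S.c (sh β)) (S.c_mem_H le_rfl) d
          (mem_mv.1 hd1).1
        rw [heq, S.t_eq (le_refl (sh β))]

/-- the lower estimate -/
theorem lower (S : Sys y M ε) {E : ℝ} (hE : ∀ F : Finset Tree, ∑ α ∈ F, ε (lev α) ≤ E)
    (hE4 : E ≤ 1 / 4) (φ : D Tree) (N : ℕ) (hφ : ∀ α, N ≤ lev α → φ (ev α) = 0) :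
    1 / 2 * ‖φ‖ ≤ ‖S.Gs φ N‖ := by
  classical
  have hg : ∀ a b, (fun α => S.t (sh α)) a ≤ (fun α => S.t (sh α)) b ↔ a ≤ b := by
    intro a b
    rw [S.t_le, sh_le]
  set Φ := pushT (fun α => S.t (sh α)) hg with hΦ
  have h1 : φ = (S.Gs φ N).comp Φ - (∑ α ∈ low N, φ (ev α) • (S.f α - S.Q α)).comp Φ := by
    apply D_ext
    intro β
    rw [_root_.sub_apply, ContinuousLinearMap.comp_apply, ContinuousLinearMap.comp_apply, hΦ,
      pushT_ev, Gs, _root_.sum_apply, _root_.sum_apply, ← Finset.sum_sub_distrib]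
    have h2 : ∀ α ∈ low N, (φ (ev α) • S.f α) (ev (S.t (sh β))) -
        (φ (ev α) • (S.f α - S.Q α)) (ev (S.t (sh β))) = if α = β then φ (ev α) else 0 := by
      intro α _
      rw [_root_.smul_apply, _root_.smul_apply, _root_.sub_apply, S.Q_ev, smul_eq_mul, smul_eq_mul]
      split_ifs <;> ring
    rw [Finset.sum_congr rfl h2, Finset.sum_ite_eq']
    split_ifs with h3
    · rfl
    · exact hφ β (not_lt.1 (fun h4 => h3 (mem_low.2 h4)))
  have h2 : ‖(∑ α ∈ low N, φ (ev α) • (S.f α - S.Q α)).comp Φ‖ ≤ 1 / 2 * ‖φ‖ := by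
    refine (norm_comp_pushT_le _ _ _).trans ((norm_sum_le _ _).trans ?_)
    have h3 : ∀ α ∈ low N, ‖φ (ev α) • (S.f α - S.Q α)‖ ≤ ‖φ‖ * (2 * ε (lev α)) := by
      intro α _
      rw [norm_smul, Real.norm_eq_abs]
      exact mul_le_mul (abs_apply_ev_le φ α) (S.norm_f_sub_Q α) (norm_nonneg _) (norm_nonneg _)
    refine (Finset.sum_le_sum h3).trans ?_
    rw [← Finset.mul_sum, ← Finset.mul_sum]
    have h4 := hE (low N)
    have h5 := norm_nonneg φ
    nlinarith
  have h3 : ‖(S.Gs φ N).comp Φ‖ ≤ ‖S.Gs φ N‖ := norm_comp_pushT_le _ _ _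
  have h4 := norm_sub_le ((S.Gs φ N).comp Φ)
    ((∑ α ∈ low N, φ (ev α) • (S.f α - S.Q α)).comp Φ)
  rw [← h1] at h4
  linarith

end Sys

end Pool.Agent.NH64.JT
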