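import Pool.Agent.NH64.JT.Build
import Pool.Agent.NH64.JT.Lower

/-!
# Non-separable subspaces of `JT*` contain the predual (helper file for MP_245e03_an, Q2)
-/

set_option autoImplicit false

open Set Filter Topology

namespace Pool.Agent.NH64.JT

open Pool.Agent.R277.JT

/-- a set of functionals whose branch limits live on countably many branches is separable -/
lemma sep_of_countable {Y : Set (D Tree)}
    (hC : {c : Br | ∃ f ∈ Y, Lm (br c) f ≠ 0}.Countable) : TopologicalSpace.IsSeparable Y := by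
  classical
  set C0 := {c : Br | ∃ f ∈ Y, Lm (br c) f ≠ 0} with hC0
  let Q : Set (D Tree) := range es ∪ ⋃ k : ℕ, (fun c => sg (br c) k) '' C0
  have hQ : Q.Countable := (countable_range es).union
    (Set.countable_iUnion fun k => hC.image _)
  have h1 : TopologicalSpace.IsSeparable (closure ((Submodule.span ℝ Q : Submodule ℝ (D Tree)) :
      Set (D Tree))) := (hQ.isSeparable.span).closure
  apply h1.mono
  intro f hf
  rw [Metric.mem_closure_iff]
  intro δ hδ
  obtain ⟨F0, hF0⟩ := structA f (show 0 < δ / 2 by linarith)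
  obtain ⟨k0, hk0⟩ := hF0 F0 (Finset.Subset.refl _)
  refine ⟨cut f (lo Tree k0) + ∑ c ∈ F0, Lm (br c) f • sg (br c) k0, ?_, ?_⟩
  · apply (Submodule.span ℝ Q).add_mem
    · rw [cut_lo_eq]
      refine (Submodule.span ℝ Q).sum_mem ?_
      intro i _
      exact Submodule.smul_mem _ _ (Submodule.subset_span (Or.inl (mem_range_self i)))
    · refine (Submodule.span ℝ Q).sum_mem ?_
      intro c _
      by_cases hc : Lm (br c) f = 0
      · rw [hc, zero_smul]
        exact Submodule.zero_mem _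
      · refine Submodule.smul_mem _ _ (Submodule.subset_span (Or.inr ?_))
        exact mem_iUnion.2 ⟨k0, mem_image_of_mem _ ⟨f, hf, hc⟩⟩
  · rw [dist_eq_norm]
    have h2 : f - (cut f (lo Tree k0) + ∑ c ∈ F0, Lm (br c) f • sg (br c) k0) =
        cut f (lv Tree k0) - ∑ c ∈ F0, Lm (br c) f • sg (br c) k0 := by
      nth_rewrite 1 [← cut_lo_add f k0]
      abel
    rw [h2]
    have h3 := hk0 k0 le_rfl
    linarith

/-- functionals with uncountably many branch limits `1` -/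
lemma exists_C {Y : Submodule ℝ (D Tree)} (hY : ¬ TopologicalSpace.IsSeparable (Y : Set (D Tree))) :
    ∃ (y : Br → D Tree) (C : Set Br) (M : ℝ), ¬ C.Countable ∧ (∀ x, y x ∈ Y) ∧
      (∀ x ∈ C, ‖y x‖ ≤ M) ∧ ∀ x ∈ C, Lm (br x) (y x) = 1 := by
  classical
  have h1 : ¬ {c : Br | ∃ f ∈ (Y : Set (D Tree)), Lm (br c) f ≠ 0}.Countable :=
    fun h => hY (sep_of_countable h)
  have h2 : ∀ c : Br, ∃ f ∈ Y, c ∈ {c : Br | ∃ f ∈ (Y : Set (D Tree)), Lm (br c) f ≠ 0} →
      Lm (br c) f = 1 := by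
    intro c
    by_cases hc : c ∈ {c : Br | ∃ f ∈ (Y : Set (D Tree)), Lm (br c) f ≠ 0}
    · obtain ⟨f, hf, hne⟩ := hc
      refine ⟨(Lm (br c) f)⁻¹ • f, Y.smul_mem _ hf, fun _ => ?_⟩
      rw [Lm_smul, inv_mul_cancel₀ hne]
    · exact ⟨0, Y.zero_mem, fun h => absurd h hc⟩
  choose y hy1 hy2 using h2
  obtain ⟨q, hq⟩ := pig h1 (fun x => ⌈‖y x‖⌉₊)
  refine ⟨y, _, q, hq, hy1, ?_, ?_⟩
  · intro x hx
    rw [← hx.2]
    exact Nat.le_ceil _
  · intro x hx
    exact hy2 x hx.1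

/-- the numbers `ε` -/
lemma exists_eps : ∃ ε : ℕ → ℝ, (∀ n, 0 < ε n) ∧ (∀ n, ε n ≤ 1) ∧
    ∀ F : Finset Tree, ∑ α ∈ F, ε (lev α) ≤ 1 / 4 := by
  classical
  have := Encodable.ofCountable Tree
  obtain ⟨η, hη, c, hc, hc4⟩ := posSumOfEncodable (show (0:ℝ) < 1 / 4 by norm_num) Tree
  have h1 : ∀ J : Finset Tree, ∃ e : ℝ, 0 < e ∧ e ≤ 1 ∧ ∀ α ∈ J, e ≤ η α := by
    intro J
    induction J using Finset.induction_on with
    | empty => exact ⟨1, one_pos, le_rfl, by simp⟩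
    | insert a J _ ih =>
      obtain ⟨e, he1, he2, he3⟩ := ih
      refine ⟨min e (η a), lt_min he1 (hη a), (min_le_left _ _).trans he2, ?_⟩
      intro α hα
      rcases Finset.mem_insert.1 hα with h | h
      · rw [h]; exact min_le_right _ _
      · exact (min_le_left _ _).trans (he3 α h)
  choose e he1 he2 he3 using fun n => h1 (lvl n)
  refine ⟨e, he1, he2, fun F => ?_⟩
  calc ∑ α ∈ F, e (lev α) ≤ ∑ α ∈ F, η α :=
        Finset.sum_le_sum fun α _ => he3 (lev α) α (mem_lvl.2 rfl)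
    _ ≤ c := sum_le_hasSum F (fun α _ => (hη α).le) hc
    _ ≤ 1 / 4 := hc4

/-- the predual of `JT`, as a space of functionals on the finitely supported functions -/
noncomputable def Bc : Submodule ℝ (D Tree) := (Submodule.span ℝ (range es)).topologicalClosure

lemma span_small {φ : D Tree} (h : φ ∈ Submodule.span ℝ (range es)) :
    ∃ N, ∀ α : Tree, N ≤ lev α → φ (ev α) = 0 := by
  classical
  induction h using Submodule.span_induction with
  | mem x hx =>
    obtain ⟨i, rfl⟩ := hx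
    refine ⟨lev i + 1, fun α hα => ?_⟩
    rw [es_ev, if_neg]
    rintro rfl
    omega
  | zero => exact ⟨0, fun _ _ => rfl⟩
  | add x y _ _ hx hy =>
    obtain ⟨N, hN⟩ := hx
    obtain ⟨N', hN'⟩ := hy
    refine ⟨max N N', fun α hα => ?_⟩
    rw [_root_.add_apply, hN α ((le_max_left _ _).trans hα), hN' α ((le_max_right _ _).trans hα),
      add_zero]
  | smul a x _ hx =>
    obtain ⟨N, hN⟩ := hx
    exact ⟨N, fun α hα => by rw [_root_.smul_apply, hN α hα, smul_zero]⟩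

lemma cut_Bc {φ : D Tree} (h : φ ∈ Bc) : Tendsto (fun n => ‖cut φ (lv Tree n)‖) atTop (𝓝 0) := by
  classical
  rw [Metric.tendsto_atTop]
  intro δ hδ
  have h1 : φ ∈ closure ((Submodule.span ℝ (range es) : Submodule ℝ (D Tree)) : Set (D Tree)) := h
  rw [Metric.mem_closure_iff] at h1
  obtain ⟨ψ, hψ1, hψ2⟩ := h1 δ hδ
  obtain ⟨N, hN⟩ := span_small hψ1
  refine ⟨N, fun n hn => ?_⟩
  rw [Real.dist_eq, sub_zero, abs_of_nonneg (norm_nonneg _)]
  have h2 : cut ψ (lv Tree n) = 0 := by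
    apply D_ext
    intro α
    by_cases hα : α ∈ lv Tree n
    · rw [cut_ev ψ hα, hN α (hn.trans hα)]
      rfl
    · rw [cut_ev_not ψ hα]
      rfl
  have h3 : cut φ (lv Tree n) = cut (φ - ψ) (lv Tree n) := by
    rw [cut_sub, h2, sub_zero]
  rw [h3]
  rw [dist_eq_norm] at hψ2
  exact (norm_cut_le _ _).trans_lt hψ2

variable {y : Br → D Tree} {M : ℝ} {ε : ℕ → ℝ}

/-- the embedding of the predual -/
theorem Sys.embed (S : Sys y M ε) (hε0 : ∀ n, 0 ≤ ε n) (hε1 : ∀ n, ε n ≤ 1)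
    (hE : ∀ F : Finset Tree, ∑ α ∈ F, ε (lev α) ≤ 1 / 4)
    (R : Submodule ℝ (D Tree)) (hR : IsClosed (R : Set (D Tree))) (hz : ∀ α, S.z α ∈ R) :
    ∃ (T : Bc →ₗ[ℝ] D Tree) (K : ℝ), (∀ φ, T φ ∈ R) ∧ (∀ φ, ‖T φ‖ ≤ K * ‖φ‖) ∧
      ∀ φ, 1 / 2 * ‖φ‖ ≤ ‖T φ‖ := by
  classical
  set K := √(40 * (1 / 4 + M ^ 2)) with hK
  have hK0 : 0 ≤ K := Real.sqrt_nonneg _
  have hU : ∀ (φ : D Tree) (N : ℕ), ‖S.Gs φ N‖ ≤ K * ‖φ‖ := fun φ N =>
    S.norm_Gs_le hε0 hε1 hE φ N
  have hGsR : ∀ φ N, S.Gs φ N ∈ R := by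
    intro φ N
    apply R.sum_mem
    intro α _
    exact R.smul_mem _ (R.sub_mem (hz _) (hz _))
  have hcut : ∀ (h : D Tree) (m n : ℕ), m ≤ n →
      S.Gs h n - S.Gs h m = S.Gs (cut h (bl Tree m n)) n := by
    intro h m n hmn
    unfold Sys.Gs
    have hsub : low m ⊆ low n := fun α hα => mem_low.2 ((mem_low.1 hα).trans_le hmn)
    rw [← Finset.sum_sdiff hsub, add_sub_cancel_right, ← Finset.sum_sdiff hsub]
    have h1 : ∑ α ∈ low m, (cut h (bl Tree m n)) (ev α) • S.f α = 0 := by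
      apply Finset.sum_eq_zero
      intro α hα
      rw [cut_ev_not h (fun hα' => not_le.2 (mem_low.1 hα) hα'.1), zero_smul]
    rw [h1, add_zero]
    apply Finset.sum_congr rfl
    intro α hα
    rw [Finset.mem_sdiff, mem_low, mem_low] at hα
    rw [cut_ev h (A := bl Tree m n) ⟨not_lt.1 hα.2, hα.1⟩]
  have hlo : ∀ (h : D Tree) (n : ℕ), S.Gs h n = S.Gs (cut h (lo Tree n)) n := by
    intro h n
    unfold Sys.Gs
    apply Finset.sum_congr rfl
    intro α hα
    rw [cut_ev h (A := lo Tree n) (mem_low.1 hα)]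
  have hCau : ∀ h ∈ Bc, CauchySeq (S.Gs h) := by
    intro h hh
    apply cauchySeq_of_le_tendsto_0 (fun m => K * ‖cut h (lv Tree m)‖ + K * ‖cut h (lv Tree m)‖)
    · have key : ∀ N n, N ≤ n → ‖S.Gs h n - S.Gs h N‖ ≤ K * ‖cut h (lv Tree N)‖ := by
        intro N n hNn
        rw [hcut h N n hNn]
        refine (hU _ n).trans ?_
        apply mul_le_mul_of_nonneg_left _ hK0
        apply norm_cut_mono
        intro i hi
        exact hi.1
      intro m n N hm hn
      rw [dist_eq_norm]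
      have h1 := key N m hm
      have h2 := key N n hn
      have h3 : S.Gs h m - S.Gs h n = (S.Gs h m - S.Gs h N) - (S.Gs h n - S.Gs h N) := by abel
      rw [h3]
      exact (norm_sub_le _ _).trans (add_le_add h1 h2)
    · have h1 := (cut_Bc hh).const_mul K
      have h2 := h1.add h1
      simpa using h2
  have hlim : ∀ h ∈ Bc, Tendsto (S.Gs h) atTop (𝓝 (limUnder atTop (S.Gs h))) :=
    fun h hh => tendsto_nhds_limUnder (cauchySeq_tendsto_of_complete (hCau h hh))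
  have hGadd : ∀ h h' n, S.Gs (h + h') n = S.Gs h n + S.Gs h' n := by
    intro h h' n
    unfold Sys.Gs
    rw [← Finset.sum_add_distrib]
    exact Finset.sum_congr rfl fun j _ => by rw [_root_.add_apply, add_smul]
  have hGsmul : ∀ (a : ℝ) h n, S.Gs (a • h) n = a • S.Gs h n := by
    intro a h n
    unfold Sys.Gs
    rw [Finset.smul_sum]
    exact Finset.sum_congr rfl fun j _ => by rw [_root_.smul_apply, smul_smul, smul_eq_mul]
  let TL : Bc →ₗ[ℝ] D Tree :=
    { toFun := fun f => limUnder atTop (S.Gs f.1)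
      map_add' := by
        intro f g
        have h1 := hlim _ (f + g).2
        have h2 := (hlim _ f.2).add (hlim _ g.2)
        refine tendsto_nhds_unique h1 (h2.congr fun n => ?_)
        exact (hGadd _ _ n).symm
      map_smul' := by
        intro a f
        have h1 := hlim _ (a • f).2
        have h2 := (hlim _ f.2).const_smul a
        refine tendsto_nhds_unique h1 (h2.congr fun n => ?_)
        exact (hGsmul _ _ n).symm }
  have hTL : ∀ f : Bc, Tendsto (S.Gs f.1) atTop (𝓝 (TL f)) := fun f => hlim _ f.2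
  have hTb : ∀ f : Bc, ‖TL f‖ ≤ K * ‖f‖ := by
    intro f
    apply le_of_tendsto (hTL f).norm
    filter_upwards with n
    exact hU _ n
  have hT : ∀ f : Bc, Tendsto (S.Gs f.1) atTop (𝓝 (TL f)) := hTL
  refine ⟨TL, K, fun f => hR.mem_of_tendsto (hT f) (Eventually.of_forall fun n => hGsR _ n),
    hTb, ?_⟩
  intro f
  have h2 : Tendsto (fun n => 1 / 2 * (‖f.1‖ - ‖cut f.1 (lv Tree n)‖)) atTop
      (𝓝 (1 / 2 * (‖f.1‖ - 0))) := ((cut_Bc f.2).const_sub _).const_mul _
  rw [sub_zero] at h2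
  refine le_of_tendsto_of_tendsto h2 (hT f).norm (Eventually.of_forall fun n => ?_)
  have h3 := S.lower hE le_rfl (cut f.1 (lo Tree n)) n
    (fun α hα => cut_ev_not _ (A := lo Tree n) (fun hα' => not_le.2 hα' hα))
  have h4 : ‖f.1‖ ≤ ‖cut f.1 (lo Tree n)‖ + ‖cut f.1 (lv Tree n)‖ := by
    have := norm_add_le (cut f.1 (lo Tree n)) (cut f.1 (lv Tree n))
    rwa [cut_lo_add] at this
  calc 1 / 2 * (‖f.1‖ - ‖cut f.1 (lv Tree n)‖) ≤ 1 / 2 * ‖cut f.1 (lo Tree n)‖ :=
        mul_le_mul_of_nonneg_left (by linarith) (by norm_num)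
    _ ≤ ‖S.Gs (cut f.1 (lo Tree n)) n‖ := h3
    _ = ‖S.Gs f.1 n‖ := by rw [← hlo]

/-- non-separable spaces of functionals contain the predual -/
theorem main2 {Y : Submodule ℝ (D Tree)} (hYc : IsClosed (Y : Set (D Tree)))
    (hY : ¬ TopologicalSpace.IsSeparable (Y : Set (D Tree))) :
    ∃ (T : Bc →ₗ[ℝ] D Tree) (K : ℝ), (∀ φ, T φ ∈ Y) ∧ (∀ φ, ‖T φ‖ ≤ K * ‖φ‖) ∧
      ∀ φ, 1 / 2 * ‖φ‖ ≤ ‖T φ‖ := by
  obtain ⟨y, C, M, hC, hy1, hy2, hy3⟩ := exists_C hY
  obtain ⟨ε, hε1, hε2, hε3⟩ := exists_eps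
  obtain ⟨S, -⟩ := exists_sys hC hy2 hy3 hε1
  exact S.embed (fun n => (hε1 n).le) hε2 hε3 Y hYc (fun α => hy1 _)

/-- the same for spaces isometric to the dual -/
theorem main3 {E : Type*} [NormedAddCommGroup E] [NormedSpace ℝ E] [CompleteSpace E]
    (e : E ≃ₗᵢ[ℝ] D Tree) (Y B : Submodule ℝ E) (hYc : IsClosed (Y : Set E))
    (hBc : IsClosed (B : Set E)) (hY : ¬ TopologicalSpace.SeparableSpace Y)
    (hB : ∀ g ∈ B, e g ∈ Bc) :
    ∃ Z : Submodule ℝ Y, IsClosed (Z : Set Y) ∧ Nonempty (Z ≃L[ℝ] B) := by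
  have hY1 : CompleteSpace Y := hYc.completeSpace_coe
  have hB1 : CompleteSpace B := hBc.completeSpace_coe
  let Y' : Submodule ℝ (D Tree) := Y.comap (e.symm.toLinearEquiv : D Tree →ₗ[ℝ] E)
  have hmem : ∀ f, f ∈ Y' ↔ e.symm f ∈ Y := fun f => Iff.rfl
  have hYc' : IsClosed (Y' : Set (D Tree)) := hYc.preimage e.symm.continuous
  have hY' : ¬ TopologicalSpace.IsSeparable (Y' : Set (D Tree)) := by
    intro h
    apply hY
    have h1 := h.image e.symm.continuous
    have h2 : (e.symm '' (Y' : Set (D Tree))) = (Y : Set E) := by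
      ext g
      constructor
      · rintro ⟨f, hf, rfl⟩
        exact hf
      · intro hg
        refine ⟨e g, ?_, e.symm_apply_apply g⟩
        change e.symm (e g) ∈ Y
        rwa [e.symm_apply_apply]
    rw [h2] at h1
    exact h1.separableSpace
  obtain ⟨T, K, hT1, hT3, hT2⟩ := main2 hYc' hY'
  let U : B →ₗ[ℝ] Y :=
    { toFun := fun g => ⟨e.symm (T ⟨e g.1, hB g.1 g.2⟩), hT1 _⟩
      map_add' := by
        intro a b
        apply Subtype.ext
        change e.symm (T ⟨e (a.1 + b.1), _⟩) = e.symm (T _) + e.symm (T _)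
        rw [← map_add, ← map_add]
        congr 2
        apply Subtype.ext
        exact map_add e a.1 b.1
      map_smul' := by
        intro c a
        apply Subtype.ext
        change e.symm (T ⟨e (c • a.1), _⟩) = c • e.symm (T _)
        rw [← map_smul, ← map_smul]
        congr 2
        apply Subtype.ext
        exact map_smul e c a.1 }
  have hUn : ∀ g : B, ‖U g‖ = ‖T ⟨e g.1, hB g.1 g.2⟩‖ := by
    intro g
    change ‖e.symm (T _)‖ = _
    rw [e.symm.norm_map]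
  have hgn : ∀ g : B, ‖(⟨e g.1, hB g.1 g.2⟩ : Bc)‖ = ‖g‖ := fun g => e.norm_map g.1
  have hb : ∀ g : B, ‖U g‖ ≤ K * ‖g‖ := by
    intro g
    rw [hUn, ← hgn g]
    exact hT3 _
  apply range_of_bound (LinearMap.mkContinuous (E := B) (F := Y) U K hb)
    (show (0:ℝ) < 1 / 2 by norm_num)
  intro g
  change 1 / 2 * ‖g‖ ≤ ‖U g‖
  rw [hUn, ← hgn g]
  exact hT2 _

end Pool.Agent.NH64.JT
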