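import Pool.Agent.NH64.JT.Upper

/-!
# The upper estimate, second part (helper file for MP_245e03_an, Q2)
-/

set_option autoImplicit false

open Set Filter Topology

namespace Pool.Agent.NH64.JT

open Pool.Agent.R277.JT

lemma sh_ch (b : Tree) (e : Bool) : sh (ch b e) = ch (sh b) e := rfl

lemma le_ch_iff {c b : Tree} {e : Bool} : c ≤ ch b e ↔ c = ch b e ∨ c ≤ b := by
  rw [tree_le, tree_le]
  exact List.prefix_concat_iff

lemma ch_not_le (b : Tree) (e : Bool) : ¬ ch b e ≤ b := by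
  intro h
  have := lev_mono h
  rw [lev_ch] at this
  omega

/-- direction of a node -/
def dir (a : Tree) : Bool :=
  (show List Bool from sh a).getLast (List.cons_ne_nil false (show List Bool from a))

lemma sh_eq (a : Tree) : sh a = ch (par (sh a)) (dir a) :=
  (List.dropLast_append_getLast (List.cons_ne_nil false (show List Bool from a))).symm

lemma par_lt (a : Tree) : par (sh a) < sh a := by
  apply lt_of_le_of_ne (par_le _)
  intro h
  have h1 := congrArg lev (sh_eq a)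
  rw [lev_ch, h] at h1
  omega

lemma lev_par_sh (a : Tree) : lev (par (sh a)) = lev a := lev_par (lev_sh a)

lemma of_between {a b δ : Tree} (hab : a ≤ b) (h1 : par (sh a) < δ) (h2 : δ ≤ sh b) :
    ∃ δ', δ = sh δ' ∧ a ≤ δ' ∧ δ' ≤ b := by
  have h0 : lev (par (sh a)) < lev δ := Lev.strict _ _ h1
  have hd : ∃ δ', δ = sh δ' := by
    obtain ⟨t, ht⟩ := tree_le.1 h2
    cases hδ : (show List Bool from δ) with
    | nil =>
      rw [lev_tree (a := δ), hδ] at h0
      simp at h0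
    | cons e l =>
      rw [hδ] at ht
      have h3 : e = false := (List.cons.inj ht).1
      subst h3
      exact ⟨(show Tree from l), rfl⟩
  obtain ⟨δ', rfl⟩ := hd
  refine ⟨δ', rfl, ?_, sh_le.1 h2⟩
  rcases Forest.comp (sh a) (sh δ') (sh b) (sh_le.2 hab) h2 with h3 | h3
  · exact sh_le.1 h3
  · have h4 := lev_mono h3
    rw [lev_par_sh] at h0
    rw [lev_sh, lev_sh] at h4
    rw [lev_sh] at h0
    have h5 : sh δ' = sh a := eq_of_lev h3 (by rw [lev_sh, lev_sh]; omega)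
    rw [sh_inj h5]

variable {y : Br → D Tree} {M : ℝ} {ε : ℕ → ℝ}

namespace Sys

/-- the differences -/
noncomputable def f (S : Sys y M ε) (α : Tree) : D Tree := S.z (sh α) - S.z (par (sh α))

lemma tele (S : Sys y M ε) {a b : Tree} (h : a ≤ b) :
    ∀ T : Finset Tree, (∀ c, c ∈ T ↔ a ≤ c ∧ c ≤ b) →
      ∑ α ∈ T, S.f α = S.z (sh b) - S.z (par (sh a)) := by
  classical
  apply le_induction (Q := fun a b => ∀ T : Finset Tree, (∀ c, c ∈ T ↔ a ≤ c ∧ c ≤ b) →
      ∑ α ∈ T, S.f α = S.z (sh b) - S.z (par (sh a))) _ _ h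
  · intro α T hT
    have h1 : T = {α} := by
      ext c
      rw [hT, Finset.mem_singleton]
      exact ⟨fun h => le_antisymm h.2 h.1, fun h => by rw [h]; exact ⟨le_rfl, le_rfl⟩⟩
    rw [h1, Finset.sum_singleton]
    rfl
  · intro a b e hab ih T hT
    have h1 : ch b e ∈ T := (hT _).2 ⟨hab.trans (le_ch b e), le_rfl⟩
    rw [← Finset.add_sum_erase _ _ h1, ih]
    · unfold f
      rw [sh_ch, par_ch]
      abel
    · intro c
      rw [Finset.mem_erase, hT, le_ch_iff]
      constructor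
      · rintro ⟨h2, h3, h4⟩
        exact ⟨h3, h4.resolve_left h2⟩
      · rintro ⟨h2, h3⟩
        refine ⟨?_, h2, Or.inr h3⟩
        rintro rfl
        exact ch_not_le _ _ h3

/-- the upper estimate for indexed families of disjoint segments -/
theorem upper2 (S : Sys y M ε) {ι : Type*} (s : Finset ι) (T : ι → Finset Tree)
    (hT : ∀ i ∈ s, (T i).Nonempty → IsSeg (T i))
    (hd : ∀ i ∈ s, ∀ j ∈ s, i ≠ j → Disjoint (T i) (T j))
    (hε0 : ∀ n, 0 ≤ ε n) (hε1 : ∀ n, ε n ≤ 1) {E : ℝ}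
    (hE : ∀ F : Finset Tree, ∑ α ∈ F, ε (lev α) ≤ E) (x : Pre Tree) :
    ∑ i ∈ s, (∑ α ∈ T i, S.f α x) ^ 2 ≤ 40 * (E + M ^ 2) * ‖x‖ ^ 2 := by
  classical
  let s' := s.filter (fun i => (T i).Nonempty)
  have h1 : ∑ i ∈ s, (∑ α ∈ T i, S.f α x) ^ 2 = ∑ i ∈ s', (∑ α ∈ T i, S.f α x) ^ 2 := by
    symm
    apply Finset.sum_subset (Finset.filter_subset _ _)
    intro i hi hi'
    have : ¬ (T i).Nonempty := fun h => hi' (Finset.mem_filter.2 ⟨hi, h⟩)
    rw [Finset.not_nonempty_iff_eq_empty] at this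
    rw [this]; simp
  have hs' : ∀ i ∈ s', i ∈ s ∧ (T i).Nonempty := fun i hi => Finset.mem_filter.1 hi
  have hseg : ∀ i, ∃ a b, i ∈ s' → (a ≤ b ∧ ∀ c, c ∈ T i ↔ a ≤ c ∧ c ≤ b) := by
    intro i
    by_cases hi : i ∈ s'
    · obtain ⟨a, b, hab, hm⟩ := hT i (hs' i hi).1 (hs' i hi).2
      exact ⟨a, b, fun _ => ⟨hab, hm⟩⟩
    · exact ⟨(show Tree from []), (show Tree from []), fun h => absurd h hi⟩
  choose a b hab using hseg
  have key : ∀ e : Bool, ∑ i ∈ s'.filter (fun i => dir (a i) = e), (∑ α ∈ T i, S.f α x) ^ 2 ≤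
      20 * (E + M ^ 2) * ‖x‖ ^ 2 := by
    intro e
    have h2 : ∀ i ∈ s'.filter (fun i => dir (a i) = e), i ∈ s' ∧ dir (a i) = e :=
      fun i hi => Finset.mem_filter.1 hi
    have hno : ∀ i ∈ s', ∀ j ∈ s', i ≠ j → ∀ c, a i ≤ c → c ≤ b i → a j ≤ c → c ≤ b j → False := by
      intro i hi j hj hij c h1 h2 h3 h4
      exact Finset.disjoint_left.1 (hd i (hs' i hi).1 j (hs' j hj).1 hij)
        (((hab i hi).2 c).2 ⟨h1, h2⟩) (((hab j hj).2 c).2 ⟨h3, h4⟩)
    have h3 := S.upper1 (s'.filter (fun i => dir (a i) = e)) (fun i => par (sh (a i)))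
      (fun i => sh (b i)) ?_ ?_ ?_ hε0 hε1 hE x
    · refine le_trans (le_of_eq (Finset.sum_congr rfl fun i hi => ?_)) h3
      rw [← S.tele (hab i (h2 i hi).1).1 (T i) (hab i (h2 i hi).1).2, _root_.sum_apply]
    · intro i hi
      exact (par_lt _).trans_le (sh_le.2 (hab i (h2 i hi).1).1)
    · intro i hi j hj hij heq
      have h4 : sh (a i) = sh (a j) := by
        rw [sh_eq (a i), sh_eq (a j), (h2 i hi).2, (h2 j hj).2, heq]
      have h5 := sh_inj h4
      have h6 := (hab j (h2 j hj).1).1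
      exact hno i (h2 i hi).1 j (h2 j hj).1 hij (a i) le_rfl (hab i (h2 i hi).1).1
        h5.ge (by rw [h5]; exact h6)
    · intro i hi j hj hij δ h4 h5 h6 h7
      obtain ⟨δ1, hδ1, h8, h9⟩ := of_between (hab i (h2 i hi).1).1 h4 h5
      obtain ⟨δ2, hδ2, h10, h11⟩ := of_between (hab j (h2 j hj).1).1 h6 h7
      have h12 : δ1 = δ2 := sh_inj (hδ1.symm.trans hδ2)
      subst h12
      exact hno i (h2 i hi).1 j (h2 j hj).1 hij δ1 h8 h9 h10 h11
  rw [h1, ← Finset.sum_filter_add_sum_filter_not s' (fun i => dir (a i) = true)]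
  have h4 := key true
  have h5 := key false
  have h6 : s'.filter (fun i => ¬ dir (a i) = true) = s'.filter (fun i => dir (a i) = false) := by
    apply Finset.filter_congr
    intro i _
    simp
  rw [h6]
  linarith

end Sys

/-- the nodes of level less than `N` -/
noncomputable def low (N : ℕ) : Finset Tree := (Lev.fin (I := Tree) N).toFinset

lemma mem_low {N : ℕ} {α : Tree} : α ∈ low N ↔ lev α < N := by
  unfold low
  rw [Set.Finite.mem_toFinset]
  rfl

namespace Sys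

/-- the partial sums -/
noncomputable def Gs (S : Sys y M ε) (φ : D Tree) (N : ℕ) : D Tree :=
  ∑ α ∈ low N, φ (ev α) • S.f α

lemma norm_Gs_le (S : Sys y M ε) (hε0 : ∀ n, 0 ≤ ε n) (hε1 : ∀ n, ε n ≤ 1) {E : ℝ}
    (hE : ∀ F : Finset Tree, ∑ α ∈ F, ε (lev α) ≤ E) (φ : D Tree) (N : ℕ) :
    ‖S.Gs φ N‖ ≤ √(40 * (E + M ^ 2)) * ‖φ‖ := by
  classical
  have hE0 : 0 ≤ E := by simpa using hE ∅
  have hK : 0 ≤ 40 * (E + M ^ 2) := by positivity
  apply ContinuousLinearMap.opNorm_le_bound _ (by positivity)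
  intro x
  set R : Pre Tree := ∑ α ∈ low N, S.f α x • ev α with hR
  have hRn : ‖R‖ ≤ √(40 * (E + M ^ 2)) * ‖x‖ := by
    apply norm_le_of (by positivity)
    intro P hP
    rw [mul_pow, Real.sq_sqrt hK]
    have h1 : ∀ T, ss T R = ∑ α ∈ T.filter (fun i => i ∈ lo Tree N), S.f α x := by
      intro T
      rw [hR, ss_sum]
      simp_rw [ss_smul, ss_ev, mul_ite, mul_one, mul_zero]
      rw [← Finset.sum_filter]
      congr 1
      ext α
      rw [Finset.mem_filter, Finset.mem_filter, mem_low]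
      exact ⟨fun h => ⟨h.2, h.1⟩, fun h => ⟨h.2, h.1⟩⟩
    simp_rw [h1]
    apply S.upper2 P (fun T => T.filter (fun i => i ∈ lo Tree N)) _ _ hε0 hε1 hE x
    · intro T hT hne
      exact seg_inter (hP.1 T hT) inferInstance hne
    · intro T hT T' hT' hne
      exact Finset.disjoint_filter_filter (hP.2 hT hT' hne)
  have h1 : S.Gs φ N x = φ R := by
    rw [hR, map_sum, Gs, _root_.sum_apply]
    apply Finset.sum_congr rfl
    intro α _
    rw [_root_.smul_apply, map_smul, smul_eq_mul, smul_eq_mul, mul_comm]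
  rw [h1]
  calc ‖φ R‖ ≤ ‖φ‖ * ‖R‖ := φ.le_opNorm R
    _ ≤ ‖φ‖ * (√(40 * (E + M ^ 2)) * ‖x‖) := mul_le_mul_of_nonneg_left hRn (norm_nonneg _)
    _ = _ := by ring

end Sys

end Pool.Agent.NH64.JT
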