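import Pool.Agent.NH64.JT.Sys
import Pool.Agent.NH64.JT.Upper2

/-!
# One step of the construction (helper file for MP_245e03_an, Q2)
-/

set_option autoImplicit false

open Set Filter Topology

namespace Pool.Agent.NH64.JT

open Pool.Agent.R277.JT

lemma diff_unc {A B : Set Br} (hA : ¬ A.Countable) (hB : B.Countable) : ¬ (A \ B).Countable := by
  intro h
  apply hA
  apply (h.union hB).mono
  intro x hx
  by_cases hxB : x ∈ B
  · exact Or.inr hxB
  · exact Or.inl ⟨hx, hxB⟩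

lemma unc_nonempty {A : Set Br} (hA : ¬ A.Countable) : ∃ x, x ∈ A := by
  by_contra h
  push Not at h
  apply hA
  rw [Set.eq_empty_of_forall_notMem h]
  exact Set.countable_empty

/-- pigeonhole principle -/
lemma pig {T : Type*} [Countable T] {W : Set Br} (hW : ¬ W.Countable) (f : Br → T) :
    ∃ a, ¬ {x | x ∈ W ∧ f x = a}.Countable := by
  by_contra h
  push Not at h
  apply hW
  apply (Set.countable_iUnion h).mono
  intro x hx
  exact mem_iUnion.2 ⟨f x, hx, rfl⟩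

lemma pin {G : Br → Finset Br} {W : Set Br} (hW : ¬ W.Countable) :
    ∃ (P : Finset Br) (V : Set Br), V ⊆ W ∧ ¬ V.Countable ∧ (∀ x ∈ V, P ⊆ G x) ∧
      ∀ d ∉ P, {x | x ∈ V ∧ d ∈ G x}.Countable := by
  classical
  obtain ⟨r, hr⟩ := pig hW (fun x => (G x).card)
  set W1 := {x | x ∈ W ∧ (G x).card = r} with hW1
  by_contra hcon
  push Not at hcon
  have key : ∀ m : ℕ, ∃ P : Finset Br, P.card = m ∧ ¬ {x | x ∈ W1 ∧ P ⊆ G x}.Countable := by
    intro m
    induction m with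
    | zero =>
      refine ⟨∅, rfl, fun h => hr (h.mono ?_)⟩
      intro x hx
      exact ⟨hx, Finset.empty_subset _⟩
    | succ m ih =>
      obtain ⟨P, hP1, hP2⟩ := ih
      obtain ⟨d, hd1, hd2⟩ := hcon P {x | x ∈ W1 ∧ P ⊆ G x} (fun x hx => hx.1.1) hP2
        (fun x hx => hx.2)
      refine ⟨insert d P, by rw [Finset.card_insert_of_notMem hd1, hP1], fun h => hd2 (h.mono ?_)⟩
      intro x hx
      exact ⟨hx.1.1, Finset.insert_subset hx.2 hx.1.2⟩
  obtain ⟨P, hP1, hP2⟩ := key (r + 1)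
  obtain ⟨x, hx⟩ := unc_nonempty hP2
  have h1 := Finset.card_le_card hx.2
  have h2 := hx.1.2
  omega

/-- condensation -/
lemma condensed {T : Type*} [Countable T] (V : Set Br) (pat : ℕ → Br → T) :
    {x | x ∈ V ∧ ∃ k, {x' | x' ∈ V ∧ pat k x' = pat k x}.Countable}.Countable := by
  have h : {x | x ∈ V ∧ ∃ k, {x' | x' ∈ V ∧ pat k x' = pat k x}.Countable} ⊆
      ⋃ k : ℕ, ⋃ v : T, {x | (x ∈ V ∧ pat k x = v) ∧ {x' | x' ∈ V ∧ pat k x' = v}.Countable} := by
    rintro x ⟨hx, k, hk⟩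
    exact mem_iUnion.2 ⟨k, mem_iUnion.2 ⟨pat k x, ⟨hx, rfl⟩, hk⟩⟩
  refine Set.Countable.mono h (Set.countable_iUnion fun k => Set.countable_iUnion fun v => ?_)
  by_cases hv : {x' | x' ∈ V ∧ pat k x' = v}.Countable
  · exact hv.mono fun x hx => hx.1
  · refine Set.Countable.mono (fun x hx => ?_) Set.countable_empty
    exact absurd hx.2 hv

/-- choice of reference points -/
lemma refs (J : Finset Tree) (A : Tree → Set Br) (Hh : Tree → Br → Finset Br) (U : Finset Br) :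
    (∀ β ∈ J, ¬ (A β).Countable) → (∀ β ∈ J, ∀ d, {x | x ∈ A β ∧ d ∈ Hh β x}.Countable) →
    ∃ r : Tree → Br, (∀ β ∈ J, r β ∈ A β ∧ ∀ d ∈ Hh β (r β), d ∉ U) ∧
      ∀ β ∈ J, ∀ β' ∈ J, β ≠ β' → ∀ d ∈ Hh β (r β), d ∉ Hh β' (r β') := by
  classical
  induction J using Finset.induction_on with
  | empty => exact fun _ _ => ⟨fun _ _ => false, by simp, by simp⟩
  | insert b J hb ih =>
    intro hA hH
    obtain ⟨r, hr1, hr2⟩ := ih (fun β hβ => hA β (Finset.mem_insert_of_mem hβ))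
      (fun β hβ => hH β (Finset.mem_insert_of_mem hβ))
    set U' := U ∪ J.biUnion (fun β => Hh β (r β)) with hU'
    have hbad : (⋃ d ∈ (U' : Set Br), {x | x ∈ A b ∧ d ∈ Hh b x}).Countable :=
      U'.countable_toSet.biUnion fun d _ => hH b (Finset.mem_insert_self _ _) d
    obtain ⟨x, hx1, hx2⟩ := unc_nonempty (diff_unc (hA b (Finset.mem_insert_self _ _)) hbad)
    have hx3 : ∀ d ∈ Hh b x, d ∉ U' := by
      intro d hd hdU
      apply hx2
      exact mem_biUnion (show d ∈ (U' : Set Br) from hdU) ⟨hx1, hd⟩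
    have hne : ∀ β ∈ J, β ≠ b := fun β hβ h => hb (h ▸ hβ)
    refine ⟨Function.update r b x, ?_, ?_⟩
    · intro β hβ
      rcases Finset.mem_insert.1 hβ with h | h
      · subst h
        rw [Function.update_self]
        exact ⟨hx1, fun d hd h => hx3 d hd (Finset.mem_union_left _ h)⟩
      · rw [Function.update_of_ne (hne β h)]
        exact hr1 β h
    · intro β hβ β' hβ' hbb d hd
      rcases Finset.mem_insert.1 hβ with h | h
      · subst h
        rcases Finset.mem_insert.1 hβ' with h' | h'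
        · exact absurd h'.symm hbb
        · rw [Function.update_self] at hd
          rw [Function.update_of_ne (hne β' h')]
          intro hd'
          exact hx3 d hd (Finset.mem_union_right _ (Finset.mem_biUnion.2 ⟨β', h', hd'⟩))
      · rw [Function.update_of_ne (hne β h)] at hd
        rcases Finset.mem_insert.1 hβ' with h' | h'
        · subst h'
          rw [Function.update_self]
          intro hd'
          exact hx3 d hd' (Finset.mem_union_right _ (Finset.mem_biUnion.2 ⟨β, h, hd⟩))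
        · rw [Function.update_of_ne (hne β' h')]
          exact hr2 β h β' h' hbb d hd

/-- separable pigeonhole principle -/
lemma sepig {V : Set Br} (hV : ¬ V.Countable) (w : Br → D Tree) {S : Set (D Tree)}
    (hS : TopologicalSpace.IsSeparable S) (hw : ∀ x ∈ V, w x ∈ S) {ε : ℝ} (hε : 0 < ε) :
    ∃ L, ¬ {x | x ∈ V ∧ ‖w x - L‖ ≤ ε}.Countable := by
  obtain ⟨c, hc1, hc2⟩ := hS
  by_contra h
  push Not at h
  apply hV
  apply (hc1.biUnion fun L _ => h L).mono
  intro x hx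
  have h1 := hc2 (hw x hx)
  rw [Metric.mem_closure_iff] at h1
  obtain ⟨L, hL1, hL2⟩ := h1 ε hε
  rw [dist_eq_norm] at hL2
  exact mem_biUnion hL1 ⟨hx, hL2.le⟩

/-- the coordinate functionals, linear version -/
def esL (i : Tree) : Pre Tree →ₗ[ℝ] ℝ where
  toFun x := x.val i
  map_add' x y := val_add x y i
  map_smul' c x := val_smul c x i

/-- the coordinate functionals -/
noncomputable def es (i : Tree) : D Tree :=
  (esL i).mkContinuous 1 (fun x => by rw [one_mul]; exact val_le x i)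

lemma es_apply (i : Tree) (x : Pre Tree) : es i x = x.val i := rfl

lemma es_ev (i j : Tree) [Decidable (i = j)] : es i (ev j) = if i = j then 1 else 0 := by
  rw [es_apply]
  split_ifs with h
  · rw [h, val_ev_self]
  · exact val_ev_ne (Ne.symm h)

lemma cut_lo_eq (f : D Tree) (k : ℕ) : cut f (lo Tree k) = ∑ i ∈ low k, f (ev i) • es i := by
  classical
  apply D_ext
  intro j
  rw [_root_.sum_apply]
  simp_rw [_root_.smul_apply, es_ev, smul_eq_mul, mul_ite, mul_one, mul_zero]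
  rw [Finset.sum_ite_eq']
  split_ifs with h
  · exact cut_ev f (A := lo Tree k) (mem_low.1 h)
  · exact cut_ev_not f (fun h' => h (mem_low.2 h'))

/-- one step of the construction -/
theorem step {y : Br → D Tree} {C : Set Br} {ε : ℝ} (hε : 0 < ε) (J : Finset Tree)
    (W : Tree → Set Br) (hW : ∀ β ∈ J, ¬ (W β).Countable) (hWC : ∀ β ∈ J, W β ⊆ C)
    (G : Br → Finset Br) (hG : ∀ x ∈ C, x ∈ G x) (κ : Br → ℕ)
    (hκ : ∀ x ∈ C, ∀ k, κ x ≤ k → Sep (G x) k ∧
      ‖cut (y x) (lv Tree k) - ∑ d ∈ G x, Lm (br d) (y x) • sg (br d) k‖ ≤ ε / 2)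
    (Go : Br → Finset Br) (Po : Tree → Finset Br)
    (ho : ∀ β ∈ J, ∀ d ∉ Po β, {x | x ∈ W β ∧ d ∈ Go x}.Countable) (U : Finset Br) (k0 : ℕ) :
    ∃ (k : ℕ) (V : Tree → Set Br) (P : Tree → Finset Br) (L : Tree → D Tree) (c : Tree → Br)
      (t : Tree → Tree), k0 < k ∧ ∀ β ∈ J, V β ⊆ W β ∧ ¬ (V β).Countable ∧ c β ∈ V β ∧
      (∀ d ∉ P β, {x | x ∈ V β ∧ d ∈ G x}.Countable) ∧
      (∀ x ∈ V β, x ∈ mv (G x) (P β) ∧ Sep (G x) k ∧
        ‖y x - L β - ∑ d ∈ mv (G x) (P β), Lm (br d) (y x) • sg (br d) k‖ ≤ ε ∧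
        (∀ d ∈ mv (Go x) (Po β), d ∉ P β) ∧ br x k = t β ∧
        (∀ d ∈ mv (G x) (P β), ∀ d' ∈ U, br d k ≠ br d' k)) ∧
      (∀ β' ∈ J, β ≠ β' → ∀ x ∈ V β, ∀ x' ∈ V β', ∀ d ∈ mv (G x) (P β),
        ∀ d' ∈ mv (G x') (P β'), br d k ≠ br d' k) := by
  classical
  -- stage 1
  have h1 : ∀ β, ∃ (q : ℕ) (P : Finset Br) (V1 : Set Br), β ∈ J → (V1 ⊆ W β ∧ ¬ V1.Countable ∧
      (∀ x ∈ V1, κ x = q ∧ P ⊆ G x) ∧ ∀ d ∉ P, {x | x ∈ V1 ∧ d ∈ G x}.Countable) := by
    intro β
    by_cases hβ : β ∈ J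
    · obtain ⟨q, hq⟩ := pig (hW β hβ) κ
      obtain ⟨P, V1, a1, a2, a3, a4⟩ := pin (G := G) hq
      exact ⟨q, P, V1, fun _ => ⟨fun x hx => (a1 hx).1, a2, fun x hx => ⟨(a1 hx).2, a3 x hx⟩, a4⟩⟩
    · exact ⟨0, ∅, ∅, fun h => absurd h hβ⟩
  choose q P V1 h1 using h1
  -- stage 2
  let pat : Tree → ℕ → Br → Finset Tree := fun β k x => (mv (G x) (P β)).image (fun d => br d k)
  let A : Tree → Set Br := fun β => V1 β \ {x | x ∈ V1 β ∧ ∃ k, {x' | x' ∈ V1 β ∧
    pat β k x' = pat β k x}.Countable}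
  have hA : ∀ β ∈ J, ¬ (A β).Countable := fun β hβ =>
    diff_unc (h1 β hβ).2.1 (condensed (V1 β) (pat β))
  -- stage 3
  obtain ⟨r, hr1, hr2⟩ := refs J A (fun β x => mv (G x) (P β)) U hA (by
    intro β hβ d
    by_cases hd : d ∈ P β
    · refine Set.Countable.mono (fun x hx => ?_) Set.countable_empty
      exact absurd hd (mem_mv.1 hx.2).2
    · refine ((h1 β hβ).2.2.2 d hd).mono ?_
      intro x hx
      exact ⟨hx.1.1, (mem_mv.1 hx.2).1⟩)
  -- stage 4
  obtain ⟨k1, hk1⟩ := exists_sep (U ∪ J.biUnion (fun β => G (r β)))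
  set k := max (max k1 (k0 + 1)) (J.sup q) with hk
  have hk1' : Sep (U ∪ J.biUnion (fun β => G (r β))) k :=
    hk1.mono ((le_max_left _ _).trans (le_max_left _ _))
  have hk0 : k0 < k := Nat.lt_of_succ_le ((le_max_right k1 (k0 + 1)).trans (le_max_left _ _))
  have hkq : ∀ β ∈ J, q β ≤ k := fun β hβ => (Finset.le_sup (f := q) hβ).trans (le_max_right _ _)
  let V2 : Tree → Set Br := fun β => {x | x ∈ V1 β ∧ pat β k x = pat β k (r β)}
  have hV2 : ∀ β ∈ J, ¬ (V2 β).Countable := by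
    intro β hβ hc
    have h2 := (hr1 β hβ).1
    exact h2.2 ⟨h2.1, k, hc⟩
  have hpat : ∀ β, ∀ x ∈ V2 β, ∀ d ∈ mv (G x) (P β), ∃ d' ∈ mv (G (r β)) (P β), br d k = br d' k := by
    intro β x hx d hd
    have h2 : br d k ∈ pat β k (r β) := by
      rw [← hx.2]
      exact Finset.mem_image_of_mem _ hd
    obtain ⟨d', hd', h3⟩ := Finset.mem_image.1 h2
    exact ⟨d', hd', h3.symm⟩
  -- stage 5
  have h5 : ∀ β, ∃ (V : Set Br) (L : D Tree) (c : Br) (t : Tree), β ∈ J → (V ⊆ V2 β ∧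
      ¬ V.Countable ∧ c ∈ V ∧ ∀ x ∈ V, x ∉ P β ∧
        ‖cut (y x) (lo Tree k) + ∑ d ∈ P β, Lm (br d) (y x) • sg (br d) k - L‖ ≤ ε / 2 ∧
        (∀ d ∈ mv (Go x) (Po β), d ∉ P β) ∧ br x k = t) := by
    intro β
    by_cases hβ : β ∈ J
    · let sp0 : Submodule ℝ (D Tree) := Submodule.span ℝ
        (((low k).image es ∪ (P β).image (fun d => sg (br d) k) : Finset (D Tree)) : Set (D Tree))
      have hsep : TopologicalSpace.IsSeparable (sp0 : Set (D Tree)) :=
        TopologicalSpace.IsSeparable.span (Finset.countable_toSet _).isSeparable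
      have hmem : ∀ x ∈ V2 β, cut (y x) (lo Tree k) +
          ∑ d ∈ P β, Lm (br d) (y x) • sg (br d) k ∈ (sp0 : Set (D Tree)) := by
        intro x _
        apply sp0.add_mem
        · rw [cut_lo_eq]
          apply sp0.sum_mem
          intro i hi
          apply sp0.smul_mem
          apply Submodule.subset_span
          rw [Finset.coe_union]
          exact Or.inl (Finset.mem_image_of_mem _ hi)
        · apply sp0.sum_mem
          intro d hd
          apply sp0.smul_mem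
          apply Submodule.subset_span
          rw [Finset.coe_union]
          exact Or.inr (Finset.mem_image_of_mem (fun d => sg (br d) k) hd)
      obtain ⟨L, hL⟩ := sepig (hV2 β hβ) (fun x => cut (y x) (lo Tree k) +
        ∑ d ∈ P β, Lm (br d) (y x) • sg (br d) k) hsep hmem (show 0 < ε / 2 by linarith)
      obtain ⟨t, ht⟩ := pig hL (fun x => br x k)
      have hB1 : ((P β : Finset Br) : Set Br).Countable := (P β).countable_toSet
      have hB2 : (⋃ d ∈ {d | d ∈ P β ∧ d ∉ Po β}, {x | x ∈ W β ∧ d ∈ Go x}).Countable := by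
        apply Set.Countable.biUnion
        · exact hB1.mono fun d hd => hd.1
        · intro d hd
          exact ho β hβ d hd.2
      have hV := diff_unc ht (hB1.union hB2)
      obtain ⟨c, hc⟩ := unc_nonempty hV
      refine ⟨_, L, c, t, fun _ => ⟨fun x hx => hx.1.1.1, hV, hc, ?_⟩⟩
      intro x hx
      refine ⟨fun h => hx.2 (Or.inl h), hx.1.1.2, ?_, hx.1.2⟩
      intro d hd hdP
      apply hx.2
      right
      exact mem_biUnion (show d ∈ {d | d ∈ P β ∧ d ∉ Po β} from ⟨hdP, (mem_mv.1 hd).2⟩)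
        ⟨(h1 β hβ).1 hx.1.1.1.1, (mem_mv.1 hd).1⟩
    · exact ⟨∅, 0, fun _ => false, (show Tree from []), fun h => absurd h hβ⟩
  choose V L c t h5 using h5
  refine ⟨k, V, P, L, c, t, hk0, fun β hβ => ?_⟩
  obtain ⟨a1, a2, a3, a4⟩ := h5 β hβ
  obtain ⟨b1, b2, b3, b4⟩ := h1 β hβ
  have hV1 : ∀ x ∈ V β, x ∈ V1 β := fun x hx => (a1 hx).1
  refine ⟨fun x hx => b1 (hV1 x hx), a2, a3, ?_, ?_, ?_⟩
  · intro d hd
    refine (b4 d hd).mono ?_
    intro x hx
    exact ⟨hV1 x hx.1, hx.2⟩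
  · intro x hx
    obtain ⟨c1, c2, c3, c4⟩ := a4 x hx
    have hxC : x ∈ C := hWC β hβ (b1 (hV1 x hx))
    obtain ⟨e1, e2⟩ := hκ x hxC k (by rw [(b3 x (hV1 x hx)).1]; exact hkq β hβ)
    refine ⟨mem_mv.2 ⟨hG x hxC, c1⟩, e1, ?_, c3, c4, ?_⟩
    · have hsplit : ∑ d ∈ G x, Lm (br d) (y x) • sg (br d) k =
          ∑ d ∈ P β, Lm (br d) (y x) • sg (br d) k +
          ∑ d ∈ mv (G x) (P β), Lm (br d) (y x) • sg (br d) k := by
        have h2 := Finset.sum_sdiff (f := fun d => Lm (br d) (y x) • sg (br d) k)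
          (b3 x (hV1 x hx)).2
        rw [← h2, add_comm]
        rfl
      have h2 : y x - L β - ∑ d ∈ mv (G x) (P β), Lm (br d) (y x) • sg (br d) k =
          (cut (y x) (lo Tree k) + ∑ d ∈ P β, Lm (br d) (y x) • sg (br d) k - L β) +
          (cut (y x) (lv Tree k) - ∑ d ∈ G x, Lm (br d) (y x) • sg (br d) k) := by
        rw [hsplit]
        nth_rewrite 1 [← cut_lo_add (y x) k]
        abel
      rw [h2]
      have h3 := norm_add_le
        (cut (y x) (lo Tree k) + ∑ d ∈ P β, Lm (br d) (y x) • sg (br d) k - L β)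
        (cut (y x) (lv Tree k) - ∑ d ∈ G x, Lm (br d) (y x) • sg (br d) k)
      linarith
    · intro d hd d' hd'
      obtain ⟨d1, hd1, hd2⟩ := hpat β x (a1 hx) d hd
      rw [hd2]
      apply hk1' d1 _ d' _ _
      · exact Finset.mem_union_right _ (Finset.mem_biUnion.2 ⟨β, hβ, (mem_mv.1 hd1).1⟩)
      · exact Finset.mem_union_left _ hd'
      · rintro rfl
        exact (hr1 β hβ).2 d1 hd1 hd'
  · intro β' hβ' hne x hx x' hx' d hd d' hd'
    obtain ⟨d1, hd1, hd2⟩ := hpat β x (a1 hx) d hd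
    obtain ⟨d2, hd3, hd4⟩ := hpat β' x' ((h5 β' hβ').1 hx') d' hd'
    rw [hd2, hd4]
    apply hk1' d1 _ d2 _ _
    · exact Finset.mem_union_right _ (Finset.mem_biUnion.2 ⟨β, hβ, (mem_mv.1 hd1).1⟩)
    · exact Finset.mem_union_right _ (Finset.mem_biUnion.2 ⟨β', hβ', (mem_mv.1 hd3).1⟩)
    · rintro rfl
      exact hr2 β hβ β' hβ' hne d1 hd1 hd3

end Pool.Agent.NH64.JT
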