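import Pool.Agent.R277.JT.Compl

/-!
# Systems of functionals with moving branches (helper file for MP_245e03_an, Q2)
-/

set_option autoImplicit false

open Set Filter Topology

namespace Pool.Agent.NH64.JT

open Pool.Agent.R277.JT

/-- branches of the dyadic tree -/
abbrev Br := ℕ → Bool

/-- child of a node -/
def ch (α : Tree) (e : Bool) : Tree := (show Tree from (show List Bool from α) ++ [e])

/-- parent of a node -/
def par (α : Tree) : Tree := (show Tree from List.dropLast (show List Bool from α))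

/-- the node `0 ⌢ α` -/
def sh (α : Tree) : Tree := (show Tree from false :: (show List Bool from α))

lemma lev_ch (α : Tree) (e : Bool) : lev (ch α e) = lev α + 1 := by
  rw [lev_tree, lev_tree]
  change ((show List Bool from α) ++ [e]).length = _
  rw [List.length_append]
  rfl

lemma le_ch (α : Tree) (e : Bool) : α ≤ ch α e := ⟨[e], rfl⟩

lemma par_ch (α : Tree) (e : Bool) : par (ch α e) = α := List.dropLast_concat

lemma ch_inj {α β : Tree} {e e' : Bool} (h : ch α e = ch β e') : α = β ∧ e = e' := by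
  have h1 := congrArg par h
  rw [par_ch, par_ch] at h1
  subst h1
  have h2 : (show List Bool from α) ++ [e] = (show List Bool from α) ++ [e'] := h
  rw [List.append_cancel_left_eq] at h2
  simpa using h2

lemma eq_ch {α : Tree} {n : ℕ} (h : lev α = n + 1) : ∃ e, α = ch (par α) e := by
  have h0 : (show List Bool from α) ≠ [] := by
    intro h1
    rw [lev_tree, h1] at h
    simp at h
  exact ⟨(show List Bool from α).getLast h0, (List.dropLast_append_getLast h0).symm⟩

lemma lev_par {α : Tree} {n : ℕ} (h : lev α = n + 1) : lev (par α) = n := by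
  obtain ⟨e, he⟩ := eq_ch h
  rw [he, lev_ch] at h
  omega

lemma par_le (α : Tree) : par α ≤ α := List.dropLast_prefix _

lemma lev_sh (α : Tree) : lev (sh α) = lev α + 1 := rfl

lemma sh_le {α β : Tree} : sh α ≤ sh β ↔ α ≤ β := by
  rw [tree_le, tree_le]
  exact List.prefix_cons_inj false

lemma sh_inj {α β : Tree} (h : sh α = sh β) : α = β := (List.cons.inj h).2

/-- appending a finite sequence -/
def app (α : Tree) (l : List Bool) : Tree := (show Tree from (show List Bool from α) ++ l)

lemma app_nil (α : Tree) : app α [] = α := List.append_nil _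

lemma app_snoc (α : Tree) (l : List Bool) (e : Bool) : app α (l ++ [e]) = ch (app α l) e :=
  (List.append_assoc _ _ _).symm

lemma le_app (α : Tree) (l : List Bool) : α ≤ app α l := ⟨l, rfl⟩

/-- induction along the order of the tree -/
lemma le_induction {Q : Tree → Tree → Prop} (h0 : ∀ α, Q α α)
    (h1 : ∀ α β e, α ≤ β → Q α β → Q α (ch β e)) {α β : Tree} (h : α ≤ β) : Q α β := by
  obtain ⟨l, hl⟩ := tree_le.1 h
  have key : ∀ l : List Bool, Q α (app α l) := by
    intro l
    induction l using List.reverseRecOn with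
    | nil => rw [app_nil]; exact h0 α
    | append_singleton l e ih =>
      rw [app_snoc]
      exact h1 _ _ e (le_app _ _) ih
  have h3 := key l
  have h4 : app α l = β := hl
  rwa [h4] at h3

/-- unique ancestor on a level -/
lemma anc_unique {α β γ : Tree} (h1 : α ≤ γ) (h2 : β ≤ γ) (h : lev α = lev β) : α = β := by
  rcases Forest.comp α β γ h1 h2 with h3 | h3
  · exact eq_of_lev h3 h.ge
  · exact (eq_of_lev h3 h.le).symm

open Classical in
/-- the moving branches -/
noncomputable def mv (A B : Finset Br) : Finset Br := A \ B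

lemma mem_mv {A B : Finset Br} {d : Br} : d ∈ mv A B ↔ d ∈ A ∧ d ∉ B := by
  classical
  exact Finset.mem_sdiff

/-- A system of nodes `α ↦ (c α, y (c α))`, with pinned branches `P α` and moving branches
`mv (G (lev α) x) (P α)`, `x ∈ V α`. -/
structure Sys (y : Br → D Tree) (M : ℝ) (ε : ℕ → ℝ) where
  k : ℕ → ℕ
  G : ℕ → Br → Finset Br
  V : Tree → Set Br
  P : Tree → Finset Br
  L : Tree → D Tree
  c : Tree → Br
  t : Tree → Tree
  k_mono : StrictMono k
  G_mono : ∀ x m n, m ≤ n → G m x ⊆ G n x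
  c_mem : ∀ α, c α ∈ V α
  V_anti : ∀ α β, α ≤ β → V β ⊆ V α
  norm : ∀ α, ∀ x ∈ V α, ‖y x‖ ≤ M
  lim : ∀ α, ∀ x ∈ V α, Lm (br x) (y x) = 1
  self : ∀ α, ∀ x ∈ V α, x ∈ mv (G (lev α) x) (P α)
  sep : ∀ α, ∀ x ∈ V α, Sep (G (lev α) x) (k (lev α))
  appr : ∀ α, ∀ x ∈ V α,
    ‖y x - L α - ∑ d ∈ mv (G (lev α) x) (P α), Lm (br d) (y x) • sg (br d) (k (lev α))‖ ≤ ε (lev α)
  mov : ∀ α β, α ≤ β → ∀ x ∈ V β, ∀ d ∈ mv (G (lev α) x) (P α), d ∉ P β
  dis : ∀ α β, lev α = lev β → α ≠ β → ∀ x ∈ V α, ∀ x' ∈ V β, ∀ d ∈ mv (G (lev α) x) (P α),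
    ∀ d' ∈ mv (G (lev β) x') (P β), br d (k (lev α)) ≠ br d' (k (lev α))
  old : ∀ α β, lev α < lev β → ∀ x ∈ V β, ∀ d ∈ mv (G (lev β) x) (P β), ∀ d' ∈ G (lev α) (c α),
    br d (k (lev β)) ≠ br d' (k (lev β))
  node : ∀ α, ∀ x ∈ V α, br x (k (lev α)) = t α

end Pool.Agent.NH64.JT
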