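import Pool.Agent.NH64.JT.Sys

/-!
# The upper estimate (helper file for MP_245e03_an, Q2)
-/

set_option autoImplicit false

open Set Filter Topology

namespace Pool.Agent.NH64.JT

open Pool.Agent.R277.JT

lemma sum_pc_sq {ι : Type*} (s : Finset ι) (H : ι → Finset Br) (a b : ι → ℕ)
    (h1 : ∀ i ∈ s, ∀ d ∈ H i, ∀ d' ∈ H i, d ≠ d' → ∀ p, a i ≤ p → br d p ≠ br d' p)
    (h2 : ∀ i ∈ s, ∀ j ∈ s, i ≠ j → ∀ d ∈ H i, ∀ d' ∈ H j, ∀ p, a i ≤ p → a j ≤ p → p < b i →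
      p < b j → br d p ≠ br d' p) (x : Pre Tree) :
    ∑ i ∈ s, ∑ d ∈ H i, (sp (br d) (a i) (b i) x) ^ 2 ≤ ‖x‖ ^ 2 := by
  classical
  rw [Finset.sum_sigma']
  simp only [sp_apply]
  apply indexed x (s.sigma H) (fun p => pc (br p.2) (a p.1) (b p.1))
  · intro p _ hp
    exact isSeg_pc' hp
  · rintro ⟨i, d⟩ hp ⟨j, d'⟩ hq hne
    rw [Finset.mem_sigma] at hp hq
    apply disj_pc
    intro n hn1 hn2 hn3 hn4
    by_cases hij : i = j
    · subst hij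
      exact h1 i hp.1 d hp.2 d' hq.2 (fun h => hne (by rw [h])) n hn1
    · exact h2 i hp.1 j hq.1 hij d hp.2 d' hq.2 n hn1 hn2 hn3 hn4

lemma sum_sg_sq {ι : Type*} (s : Finset ι) (H : ι → Finset Br) (a : ι → ℕ)
    (h1 : ∀ i ∈ s, ∀ d ∈ H i, ∀ d' ∈ H i, d ≠ d' → ∀ p, a i ≤ p → br d p ≠ br d' p)
    (h2 : ∀ i ∈ s, ∀ j ∈ s, i ≠ j → ∀ d ∈ H i, ∀ d' ∈ H j, ∀ p, a i ≤ p → a j ≤ p →
      br d p ≠ br d' p) (x : Pre Tree) :
    ∑ i ∈ s, ∑ d ∈ H i, (sg (br d) (a i) x) ^ 2 ≤ ‖x‖ ^ 2 := by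
  classical
  rw [Finset.sum_sigma']
  apply tails_sq (s.sigma H) (fun p => br p.2) (fun p => a p.1)
  rintro ⟨i, d⟩ hp ⟨j, d'⟩ hq hne n hn1 hn2
  rw [Finset.mem_sigma] at hp hq
  by_cases hij : i = j
  · subst hij
    exact h1 i hp.1 d hp.2 d' hq.2 (fun h => hne (by rw [h])) n hn1
  · exact h2 i hp.1 j hq.1 hij d hp.2 d' hq.2 n hn1 hn2

/-- Cauchy-Schwarz -/
lemma cs {H : Finset Br} {f : D Tree} {M : ℝ} (hf : ‖f‖ ≤ M) (v : Br → ℝ) :
    (∑ d ∈ H, Lm (br d) f * v d) ^ 2 ≤ M ^ 2 * ∑ d ∈ H, v d ^ 2 := by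
  refine (Finset.sum_mul_sq_le_sq_mul_sq H _ _).trans ?_
  apply mul_le_mul_of_nonneg_right _ (Finset.sum_nonneg fun _ _ => sq_nonneg _)
  exact (sum_Lm_sq f H).trans (pow_le_pow_left₀ (norm_nonneg _) hf 2)

variable {y : Br → D Tree} {M : ℝ} {ε : ℕ → ℝ}

namespace Sys

/-- the functionals of the system -/
def z (S : Sys y M ε) (α : Tree) : D Tree := y (S.c α)

/-- the moving branches of `c β` at `α` -/
noncomputable def H (S : Sys y M ε) (α β : Tree) : Finset Br := mv (S.G (lev α) (S.c β)) (S.P α)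

lemma br_ne_k {d d' : Br} {m n : ℕ} (h : br d m ≠ br d' m) (hn : m ≤ n) : br d n ≠ br d' n :=
  br_ne_of h hn

lemma c_mem' (S : Sys y M ε) {α β : Tree} (h : α ≤ β) : S.c β ∈ S.V α := S.V_anti α β h (S.c_mem β)

/-- moving branches stay moving -/
lemma H_sub (S : Sys y M ε) {γ δ β : Tree} (h1 : γ ≤ δ) (h2 : δ ≤ β) : S.H γ β ⊆ S.H δ β := by
  intro d hd
  have h3 := mem_mv.1 hd
  rw [H, mem_mv]
  refine ⟨S.G_mono _ _ _ (lev_mono h1) h3.1, ?_⟩
  exact S.mov γ δ h1 (S.c β) (S.c_mem' h2) d hd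

lemma H_sep (S : Sys y M ε) {γ β : Tree} (h : γ ≤ β) {d d' : Br} (hd : d ∈ S.H γ β)
    (hd' : d' ∈ S.H γ β) (hne : d ≠ d') {p : ℕ} (hp : S.k (lev γ) ≤ p) : br d p ≠ br d' p :=
  br_ne_of (S.sep γ (S.c β) (S.c_mem' h) d (mem_mv.1 hd).1 d' (mem_mv.1 hd').1 hne) hp

lemma H_dis (S : Sys y M ε) {δ β δ' β' : Tree} (h : δ ≤ β) (h' : δ' ≤ β') (hl : lev δ = lev δ')
    (hne : δ ≠ δ') {d d' : Br} (hd : d ∈ S.H δ β) (hd' : d' ∈ S.H δ' β') {p : ℕ}
    (hp : S.k (lev δ) ≤ p) : br d p ≠ br d' p :=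
  br_ne_of (S.dis δ δ' hl hne (S.c β) (S.c_mem' h) (S.c β') (S.c_mem' h') d hd d' hd') hp

/-- the decomposition of differences -/
lemma decomp (S : Sys y M ε) {γ β : Tree} (h : γ < β) (x : Pre Tree) :
    ∃ e : ℝ, |e| ≤ 2 * ε (lev γ) * ‖x‖ ∧ (S.z β - S.z γ) x = e +
      ∑ d ∈ S.H γ β, Lm (br d) (S.z β) * sp (br d) (S.k (lev γ)) (S.k (lev γ + 1)) x +
      ∑ d ∈ S.H γ β, Lm (br d) (S.z β) * sp (br d) (S.k (lev γ + 1)) (S.k (lev β)) x +
      ∑ d ∈ S.H γ β, Lm (br d) (S.z β) * sg (br d) (S.k (lev β)) x -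
      ∑ d ∈ S.H γ γ, Lm (br d) (S.z γ) * sg (br d) (S.k (lev γ)) x := by
  have hl : lev γ < lev β := Lev.strict γ β h
  have a1 := S.appr γ (S.c β) (S.c_mem' h.le)
  have a2 := S.appr γ (S.c γ) (S.c_mem γ)
  set g1 := y (S.c β) - S.L γ - ∑ d ∈ mv (S.G (lev γ) (S.c β)) (S.P γ),
    Lm (br d) (y (S.c β)) • sg (br d) (S.k (lev γ)) with hg1
  set g2 := y (S.c γ) - S.L γ - ∑ d ∈ mv (S.G (lev γ) (S.c γ)) (S.P γ),
    Lm (br d) (y (S.c γ)) • sg (br d) (S.k (lev γ)) with hg2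
  refine ⟨(g1 - g2) x, ?_, ?_⟩
  · have h1 := (g1 - g2).le_opNorm x
    rw [Real.norm_eq_abs] at h1
    refine h1.trans (mul_le_mul_of_nonneg_right ?_ (norm_nonneg _))
    have h2 := norm_sub_le g1 g2
    linarith
  · have h1 : ∀ d, sg (br d) (S.k (lev γ)) x =
        sp (br d) (S.k (lev γ)) (S.k (lev γ + 1)) x +
        sp (br d) (S.k (lev γ + 1)) (S.k (lev β)) x + sg (br d) (S.k (lev β)) x := by
      intro d
      rw [← sg_sub (S.k_mono.monotone (Nat.le_succ _)), ← sg_sub (S.k_mono.monotone hl),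
        _root_.sub_apply, _root_.sub_apply]
      ring
    have h2 : (∑ d ∈ mv (S.G (lev γ) (S.c β)) (S.P γ),
        Lm (br d) (y (S.c β)) • sg (br d) (S.k (lev γ))) x =
        ∑ d ∈ S.H γ β, Lm (br d) (S.z β) * sp (br d) (S.k (lev γ)) (S.k (lev γ + 1)) x +
        ∑ d ∈ S.H γ β, Lm (br d) (S.z β) * sp (br d) (S.k (lev γ + 1)) (S.k (lev β)) x +
        ∑ d ∈ S.H γ β, Lm (br d) (S.z β) * sg (br d) (S.k (lev β)) x := by
      rw [_root_.sum_apply, ← Finset.sum_add_distrib, ← Finset.sum_add_distrib]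
      apply Finset.sum_congr rfl
      intro d _
      rw [_root_.smul_apply, smul_eq_mul, h1 d]
      change Lm (br d) (S.z β) * _ = _
      ring
    have h3 : (∑ d ∈ mv (S.G (lev γ) (S.c γ)) (S.P γ),
        Lm (br d) (y (S.c γ)) • sg (br d) (S.k (lev γ))) x =
        ∑ d ∈ S.H γ γ, Lm (br d) (S.z γ) * sg (br d) (S.k (lev γ)) x := by
      rw [_root_.sum_apply]
      rfl
    rw [_root_.sub_apply, _root_.sub_apply, hg1, hg2, _root_.sub_apply, _root_.sub_apply,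
      _root_.sub_apply, _root_.sub_apply, h2, h3]
    change (S.z β) x - (S.z γ) x = ((S.z β) x - _ - _) - ((S.z γ) x - _ - _) + _ + _ + _ - _
    ring

lemma exists_anc {γ β : Tree} {l : ℕ} (h : γ < β) (h1 : lev γ < l) (h2 : l ≤ lev β) :
    ∃ δ, γ < δ ∧ δ ≤ β ∧ lev δ = l := by
  obtain ⟨δ, hδ1, hδ2⟩ := exists_pred β h2
  refine ⟨δ, ?_, hδ1, hδ2⟩
  rcases Forest.comp γ δ β h.le hδ1 with h3 | h3
  · exact lt_of_le_of_ne h3 (by rintro rfl; omega)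
  · have := lev_mono h3
    omega

/-- the upper estimate for a family of disjoint intervals `(γ i, β i]` with different `γ i` -/
theorem upper1 (S : Sys y M ε) {ι : Type*} (s : Finset ι) (γ β : ι → Tree)
    (hlt : ∀ i ∈ s, γ i < β i) (hinj : ∀ i ∈ s, ∀ j ∈ s, i ≠ j → γ i ≠ γ j)
    (hdis : ∀ i ∈ s, ∀ j ∈ s, i ≠ j → ∀ δ, γ i < δ → δ ≤ β i → γ j < δ → δ ≤ β j → False)
    (hε0 : ∀ n, 0 ≤ ε n) (hε1 : ∀ n, ε n ≤ 1) {E : ℝ}
    (hE : ∀ F : Finset Tree, ∑ α ∈ F, ε (lev α) ≤ E) (x : Pre Tree) :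
    ∑ i ∈ s, ((S.z (β i) - S.z (γ i)) x) ^ 2 ≤ 20 * (E + M ^ 2) * ‖x‖ ^ 2 := by
  classical
  choose! e he1 he2 using fun i (hi : i ∈ s) => S.decomp (hlt i hi) x
  have hkm := S.k_mono.monotone
  have hM : ∀ α, ‖S.z α‖ ≤ M := fun α => S.norm α _ (S.c_mem α)
  -- the error terms
  have E1 : ∑ i ∈ s, (e i) ^ 2 ≤ 4 * E * ‖x‖ ^ 2 := by
    have h1 : ∀ i ∈ s, (e i) ^ 2 ≤ ε (lev (γ i)) * (4 * ‖x‖ ^ 2) := by
      intro i hi
      have h2 := he1 i hi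
      have h3 : (e i) ^ 2 ≤ (2 * ε (lev (γ i)) * ‖x‖) ^ 2 := by
        rw [← sq_abs (e i)]
        exact pow_le_pow_left₀ (abs_nonneg _) h2 2
      have h4 := hε0 (lev (γ i))
      have h5 := hε1 (lev (γ i))
      have h6 : ε (lev (γ i)) ^ 2 ≤ ε (lev (γ i)) := by nlinarith
      calc _ ≤ _ := h3
        _ = ε (lev (γ i)) ^ 2 * (4 * ‖x‖ ^ 2) := by ring
        _ ≤ _ := mul_le_mul_of_nonneg_right h6 (by positivity)
    refine (Finset.sum_le_sum h1).trans ?_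
    rw [← Finset.sum_mul]
    have h2 : ∑ i ∈ s, ε (lev (γ i)) = ∑ α ∈ s.image γ, ε (lev α) := by
      rw [Finset.sum_image]
      intro i hi j hj hij
      by_contra hne
      exact hinj i hi j hj hne hij
    rw [h2]
    have h3 := hE (s.image γ)
    have h4 : 0 ≤ 4 * ‖x‖ ^ 2 := by positivity
    nlinarith
  -- first block
  have A1 : ∑ i ∈ s, (∑ d ∈ S.H (γ i) (β i), Lm (br d) (S.z (β i)) *
      sp (br d) (S.k (lev (γ i))) (S.k (lev (γ i) + 1)) x) ^ 2 ≤ M ^ 2 * ‖x‖ ^ 2 := by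
    refine (Finset.sum_le_sum fun i _ => cs (hM (β i)) _).trans ?_
    rw [← Finset.mul_sum]
    apply mul_le_mul_of_nonneg_left _ (sq_nonneg _)
    apply sum_pc_sq s (fun i => S.H (γ i) (β i)) (fun i => S.k (lev (γ i)))
      (fun i => S.k (lev (γ i) + 1))
    · intro i hi d hd d' hd' hne p hp
      exact S.H_sep (hlt i hi).le hd hd' hne hp
    · intro i hi j hj hij d hd d' hd' p hp1 hp2 hp3 hp4
      have hl : lev (γ i) = lev (γ j) := by
        rcases lt_trichotomy (lev (γ i)) (lev (γ j)) with h | h | h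
        · exact absurd ((hkm h).trans hp2) (not_le.2 hp3)
        · exact h
        · exact absurd ((hkm h).trans hp1) (not_le.2 hp4)
      exact S.H_dis (hlt i hi).le (hlt j hj).le hl (hinj i hi j hj hij) hd hd' hp1
  -- middle block
  have B1 : ∑ i ∈ s, (∑ d ∈ S.H (γ i) (β i), Lm (br d) (S.z (β i)) *
      sp (br d) (S.k (lev (γ i) + 1)) (S.k (lev (β i))) x) ^ 2 ≤ M ^ 2 * ‖x‖ ^ 2 := by
    refine (Finset.sum_le_sum fun i _ => cs (hM (β i)) _).trans ?_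
    rw [← Finset.mul_sum]
    apply mul_le_mul_of_nonneg_left _ (sq_nonneg _)
    apply sum_pc_sq s (fun i => S.H (γ i) (β i)) (fun i => S.k (lev (γ i) + 1))
      (fun i => S.k (lev (β i)))
    · intro i hi d hd d' hd' hne p hp
      exact S.H_sep (hlt i hi).le hd hd' hne ((hkm (Nat.le_succ _)).trans hp)
    · intro i hi j hj hij d hd d' hd' p hp1 hp2 hp3 hp4
      set l := max (lev (γ i) + 1) (lev (γ j) + 1) with hl
      have hlp : S.k l ≤ p := by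
        rcases max_choice (lev (γ i) + 1) (lev (γ j) + 1) with h | h
        · rw [hl, h]; exact hp1
        · rw [hl, h]; exact hp2
      have hli : l < lev (β i) := S.k_mono.lt_iff_lt.1 (hlp.trans_lt hp3)
      have hlj : l < lev (β j) := S.k_mono.lt_iff_lt.1 (hlp.trans_lt hp4)
      obtain ⟨δ, hδ1, hδ2, hδ3⟩ := exists_anc (hlt i hi)
        (show lev (γ i) < l from (Nat.lt_succ_self _).trans_le (le_max_left _ _)) hli.le
      obtain ⟨δ', hδ'1, hδ'2, hδ'3⟩ := exists_anc (hlt j hj)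
        (show lev (γ j) < l from (Nat.lt_succ_self _).trans_le (le_max_right _ _)) hlj.le
      have hne : δ ≠ δ' := by
        rintro rfl
        exact hdis i hi j hj hij δ hδ1 hδ2 hδ'1 hδ'2
      refine S.H_dis hδ2 hδ'2 (by rw [hδ3, hδ'3]) hne (S.H_sub hδ1.le hδ2 hd)
        (S.H_sub hδ'1.le hδ'2 hd') ?_
      rw [hδ3]
      exact hlp
  -- the tails
  have C1 : ∑ i ∈ s, (∑ d ∈ S.H (γ i) (β i), Lm (br d) (S.z (β i)) *
      sg (br d) (S.k (lev (β i))) x) ^ 2 ≤ M ^ 2 * ‖x‖ ^ 2 := by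
    refine (Finset.sum_le_sum fun i _ => cs (hM (β i)) _).trans ?_
    rw [← Finset.mul_sum]
    apply mul_le_mul_of_nonneg_left _ (sq_nonneg _)
    apply sum_sg_sq s (fun i => S.H (γ i) (β i)) (fun i => S.k (lev (β i)))
    · intro i hi d hd d' hd' hne p hp
      exact S.H_sep (hlt i hi).le hd hd' hne ((hkm (lev_mono (hlt i hi).le)).trans hp)
    · intro i hi j hj hij d hd d' hd' p hp1 hp2
      have hd1 := S.H_sub (hlt i hi).le le_rfl hd
      have hd'1 := S.H_sub (hlt j hj).le le_rfl hd'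
      rcases lt_trichotomy (lev (β i)) (lev (β j)) with h | h | h
      · have h1 := S.old (β i) (β j) h (S.c (β j)) (S.c_mem _) d' hd'1 d (mem_mv.1 hd1).1
        exact (br_ne_of h1 hp2).symm
      · have hne : β i ≠ β j := by
          intro h1
          apply hdis i hi j hj hij (β i) (hlt i hi) le_rfl
          · rw [h1]; exact hlt j hj
          · rw [h1]
        exact S.H_dis le_rfl le_rfl h hne hd1 hd'1 hp1
      · have h1 := S.old (β j) (β i) h (S.c (β i)) (S.c_mem _) d hd1 d' (mem_mv.1 hd'1).1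
        exact br_ne_of h1 hp1
  have D1 : ∑ i ∈ s, (∑ d ∈ S.H (γ i) (γ i), Lm (br d) (S.z (γ i)) *
      sg (br d) (S.k (lev (γ i))) x) ^ 2 ≤ M ^ 2 * ‖x‖ ^ 2 := by
    refine (Finset.sum_le_sum fun i _ => cs (hM (γ i)) _).trans ?_
    rw [← Finset.mul_sum]
    apply mul_le_mul_of_nonneg_left _ (sq_nonneg _)
    apply sum_sg_sq s (fun i => S.H (γ i) (γ i)) (fun i => S.k (lev (γ i)))
    · intro i hi d hd d' hd' hne p hp
      exact S.H_sep le_rfl hd hd' hne hp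
    · intro i hi j hj hij d hd1 d' hd'1 p hp1 hp2
      rcases lt_trichotomy (lev (γ i)) (lev (γ j)) with h | h | h
      · have h1 := S.old (γ i) (γ j) h (S.c (γ j)) (S.c_mem _) d' hd'1 d (mem_mv.1 hd1).1
        exact (br_ne_of h1 hp2).symm
      · exact S.H_dis le_rfl le_rfl h (hinj i hi j hj hij) hd1 hd'1 hp1
      · have h1 := S.old (γ j) (γ i) h (S.c (γ i)) (S.c_mem _) d hd1 d' (mem_mv.1 hd'1).1
        exact br_ne_of h1 hp1
  -- conclusion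
  have key : ∀ a b c d f : ℝ, (a + b + c + d - f) ^ 2 ≤
      5 * (a ^ 2 + b ^ 2 + c ^ 2 + d ^ 2 + f ^ 2) := by
    intro a b c d f
    nlinarith [sq_nonneg (a - b), sq_nonneg (a - c), sq_nonneg (a - d), sq_nonneg (a + f),
      sq_nonneg (b - c), sq_nonneg (b - d), sq_nonneg (b + f), sq_nonneg (c - d),
      sq_nonneg (c + f), sq_nonneg (d + f)]
  have h1 : ∑ i ∈ s, ((S.z (β i) - S.z (γ i)) x) ^ 2 ≤ ∑ i ∈ s, 5 * ((e i) ^ 2 +
      (∑ d ∈ S.H (γ i) (β i), Lm (br d) (S.z (β i)) *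
        sp (br d) (S.k (lev (γ i))) (S.k (lev (γ i) + 1)) x) ^ 2 +
      (∑ d ∈ S.H (γ i) (β i), Lm (br d) (S.z (β i)) *
        sp (br d) (S.k (lev (γ i) + 1)) (S.k (lev (β i))) x) ^ 2 +
      (∑ d ∈ S.H (γ i) (β i), Lm (br d) (S.z (β i)) * sg (br d) (S.k (lev (β i))) x) ^ 2 +
      (∑ d ∈ S.H (γ i) (γ i), Lm (br d) (S.z (γ i)) * sg (br d) (S.k (lev (γ i))) x) ^ 2) := by
    apply Finset.sum_le_sum
    intro i hi
    rw [he2 i hi]
    exact key _ _ _ _ _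
  rw [← Finset.mul_sum, Finset.sum_add_distrib, Finset.sum_add_distrib, Finset.sum_add_distrib,
    Finset.sum_add_distrib] at h1
  nlinarith

end Sys

end Pool.Agent.NH64.JT
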